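import Mathlib

set_option autoImplicit false

namespace Rid

theorem C1_fac (p n : ℕ) : ∑ i ∈ Finset.range n, (i + 1).factorization p = n.factorial.factorization p := by
  rw [← Finset.prod_range_add_one_eq_factorial, Nat.factorization_prod (fun x _ => Nat.succ_ne_zero x),
    Finsupp.finsetSum_apply]

theorem C1_lt (p m j i : ℕ) (hp : p.Prime) (hi : i < j)
    (hle : (m + i).factorization p ≤ (m + j).factorization p) (_hmi : m + i ≠ 0) :
    (m + i).factorization p ≤ (j - i).factorization p := by
  have hmj : m + j ≠ 0 := by omega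
  have h1 : p ^ (m + i).factorization p ∣ m + i := Nat.ordProj_dvd _ _
  have h2 : p ^ (m + i).factorization p ∣ m + j := (pow_dvd_pow p hle).trans (Nat.ordProj_dvd _ _)
  have h3 : p ^ (m + i).factorization p ∣ j - i := by
    have := Nat.dvd_sub h2 h1
    rwa [show m + j - (m + i) = j - i by omega] at this
  exact (hp.pow_dvd_iff_le_factorization (by omega)).1 h3

theorem C1_gt (p m j i : ℕ) (hp : p.Prime) (hi : j < i)
    (hle : (m + i).factorization p ≤ (m + j).factorization p) (_hmi : m + i ≠ 0) :
    (m + i).factorization p ≤ (i - j).factorization p := by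
  have h1 : p ^ (m + i).factorization p ∣ m + i := Nat.ordProj_dvd _ _
  have h2 : p ^ (m + i).factorization p ∣ m + j := (pow_dvd_pow p hle).trans (Nat.ordProj_dvd _ _)
  have h3 : p ^ (m + i).factorization p ∣ i - j := by
    have := Nat.dvd_sub h1 h2
    rwa [show m + i - (m + j) = i - j by omega] at this
  exact (hp.pow_dvd_iff_le_factorization (by omega)).1 h3

/-- ROW 4ae-C1. Let `j` be the index of the largest `p`-valuation in the upper block; `v(m₂+i) ≤ v(i-j)` for `i ≠ j`, so the valuation
of the product is at most `v(m₂+j) + v((j-1)!(k₂-j)!) ≤ v(m₂+j) + v(k₂!)`; and `k₁!` divides the lower product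
(Nat.factorial_dvd_ascFactorial), `(k₁-k₂)! k₂! ∣ k₁!`. -/
theorem block_index (m₁ k₁ m₂ k₂ : ℕ) (hk : k₂ < k₁) (hk2 : 1 ≤ k₂)
    (h : ∏ i ∈ Finset.Icc 1 k₁, (m₁ + i) = ∏ j ∈ Finset.Icc 1 k₂, (m₂ + j)) (p : ℕ) (hp : p.Prime) :
    ∃ j, 1 ≤ j ∧ j ≤ k₂ ∧ p ^ (padicValNat p (k₁ - k₂).factorial) ∣ m₂ + j := by
  obtain ⟨j, hj, hmax⟩ := Finset.exists_max_image (Finset.Icc 1 k₂) (fun i => (m₂ + i).factorization p)
    ⟨1, Finset.mem_Icc.2 ⟨le_rfl, hk2⟩⟩
  rw [Finset.mem_Icc] at hj
  refine ⟨j, hj.1, hj.2, ?_⟩
  rw [← Nat.factorization_def _ hp]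
  refine (hp.pow_dvd_iff_le_factorization (by omega)).2 ?_
  -- lower product
  have hk1 : k₁.factorial ∣ ∏ i ∈ Finset.Icc 1 k₁, (m₁ + i) := by
    have h1 : ∏ i ∈ Finset.Icc 1 k₁, (m₁ + i) = (m₁ + 1).ascFactorial k₁ := by
      rw [Nat.ascFactorial_eq_prod_range]
      refine Finset.prod_nbij' (fun i => i - 1) (fun t => t + 1) ?_ ?_ ?_ ?_ ?_
      · intro a ha
        rw [Finset.mem_Icc] at ha
        rw [Finset.mem_range]
        omega
      · intro a ha
        rw [Finset.mem_range] at ha
        rw [Finset.mem_Icc]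
        omega
      · intro a ha
        rw [Finset.mem_Icc] at ha
        show a - 1 + 1 = a
        omega
      · intro a ha
        show a + 1 - 1 = a
        omega
      · intro a ha
        rw [Finset.mem_Icc] at ha
        show m₁ + a = m₁ + 1 + (a - 1)
        omega
    rw [h1]
    exact Nat.factorial_dvd_ascFactorial _ _
  have hne : ∏ j ∈ Finset.Icc 1 k₂, (m₂ + j) ≠ 0 := by
    rw [Finset.prod_ne_zero_iff]
    intro a ha
    rw [Finset.mem_Icc] at ha
    omega
  have hv1 : k₁.factorial.factorization p ≤ ∑ i ∈ Finset.Icc 1 k₂, (m₂ + i).factorization p := by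
    have h2 : (∏ j ∈ Finset.Icc 1 k₂, (m₂ + j)).factorization p = ∑ i ∈ Finset.Icc 1 k₂, (m₂ + i).factorization p := by
      rw [Nat.factorization_prod, Finsupp.finsetSum_apply]
      intro a ha
      rw [Finset.mem_Icc] at ha
      omega
    rw [← h2]
    rw [h] at hk1
    exact (Nat.factorization_le_iff_dvd (Nat.factorial_ne_zero _) hne).2 hk1 p
  have hv2 : (k₁ - k₂).factorial.factorization p + k₂.factorial.factorization p ≤ k₁.factorial.factorization p := by
    have h3 : (k₁ - k₂).factorial * k₂.factorial ∣ k₁.factorial := by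
      have := Nat.factorial_mul_factorial_dvd_factorial_add (k₁ - k₂) k₂
      rwa [show k₁ - k₂ + k₂ = k₁ by omega] at this
    have h4 := (Nat.factorization_le_iff_dvd (mul_ne_zero (Nat.factorial_ne_zero _) (Nat.factorial_ne_zero _))
      (Nat.factorial_ne_zero _)).2 h3 p
    rwa [Nat.factorization_mul (Nat.factorial_ne_zero _) (Nat.factorial_ne_zero _), Finsupp.add_apply] at h4
  -- split the sum
  have hsplit : ∑ i ∈ Finset.Icc 1 k₂, (m₂ + i).factorization p
      = ∑ i ∈ Finset.Ico 1 j, (m₂ + i).factorization p + ((m₂ + j).factorization p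
        + ∑ i ∈ Finset.Ico (j + 1) (k₂ + 1), (m₂ + i).factorization p) := by
    have e1 : Finset.Icc 1 k₂ = Finset.Ico 1 (k₂ + 1) := by
      ext x
      simp only [Finset.mem_Icc, Finset.mem_Ico]
      omega
    rw [e1, ← Finset.sum_Ico_consecutive _ (show 1 ≤ j from hj.1) (show j ≤ k₂ + 1 by omega),
      Finset.sum_eq_sum_Ico_succ_bot (show j < k₂ + 1 by omega)]
  have hlow : ∑ i ∈ Finset.Ico 1 j, (m₂ + i).factorization p ≤ (j - 1).factorial.factorization p := by
    rw [← C1_fac]
    have e2 : ∑ i ∈ Finset.Ico 1 j, (j - i).factorization p = ∑ i ∈ Finset.range (j - 1), (i + 1).factorization p := by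
      refine Finset.sum_nbij' (fun i => j - i - 1) (fun t => j - t - 1) ?_ ?_ ?_ ?_ ?_
      · intro a ha
        rw [Finset.mem_Ico] at ha
        rw [Finset.mem_range]
        omega
      · intro a ha
        rw [Finset.mem_range] at ha
        rw [Finset.mem_Ico]
        omega
      · intro a ha
        rw [Finset.mem_Ico] at ha
        show j - (j - a - 1) - 1 = a
        omega
      · intro a ha
        rw [Finset.mem_range] at ha
        show j - (j - a - 1) - 1 = a
        omega
      · intro a ha
        rw [Finset.mem_Ico] at ha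
        show (j - a).factorization p = (j - a - 1 + 1).factorization p
        rw [show j - a - 1 + 1 = j - a by omega]
    rw [← e2]
    refine Finset.sum_le_sum fun i hi => ?_
    rw [Finset.mem_Ico] at hi
    exact C1_lt p m₂ j i hp hi.2 (hmax i (Finset.mem_Icc.2 ⟨hi.1, by omega⟩)) (by omega)
  have hhigh : ∑ i ∈ Finset.Ico (j + 1) (k₂ + 1), (m₂ + i).factorization p ≤ (k₂ - j).factorial.factorization p := by
    rw [← C1_fac]
    have e2 : ∑ i ∈ Finset.Ico (j + 1) (k₂ + 1), (i - j).factorization p
        = ∑ i ∈ Finset.range (k₂ - j), (i + 1).factorization p := by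
      refine Finset.sum_nbij' (fun i => i - j - 1) (fun t => t + j + 1) ?_ ?_ ?_ ?_ ?_
      · intro a ha
        rw [Finset.mem_Ico] at ha
        rw [Finset.mem_range]
        omega
      · intro a ha
        rw [Finset.mem_range] at ha
        rw [Finset.mem_Ico]
        omega
      · intro a ha
        rw [Finset.mem_Ico] at ha
        show a - j - 1 + j + 1 = a
        omega
      · intro a ha
        show a + j + 1 - j - 1 = a
        omega
      · intro a ha
        rw [Finset.mem_Ico] at ha
        show (a - j).factorization p = (a - j - 1 + 1).factorization p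
        rw [show a - j - 1 + 1 = a - j by omega]
    rw [← e2]
    refine Finset.sum_le_sum fun i hi => ?_
    rw [Finset.mem_Ico] at hi
    exact C1_gt p m₂ j i hp (by omega) (hmax i (Finset.mem_Icc.2 ⟨by omega, by omega⟩)) (by omega)
  have hv3 : (j - 1).factorial.factorization p + (k₂ - j).factorial.factorization p ≤ k₂.factorial.factorization p := by
    have h3 : (j - 1).factorial * (k₂ - j).factorial ∣ k₂.factorial :=
      (Nat.factorial_mul_factorial_dvd_factorial_add (j - 1) (k₂ - j)).trans (Nat.factorial_dvd_factorial (by omega))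
    have h4 := (Nat.factorization_le_iff_dvd (mul_ne_zero (Nat.factorial_ne_zero _) (Nat.factorial_ne_zero _))
      (Nat.factorial_ne_zero _)).2 h3 p
    rwa [Nat.factorization_mul (Nat.factorial_ne_zero _) (Nat.factorial_ne_zero _), Finsupp.add_apply] at h4
  omega

end Rid
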