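import Mathlib

set_option autoImplicit false

namespace Rid

theorem C2_digsum (p K : ℕ) (hp : p.Prime) : (p.digits K).sum ≤ (p - 1) * (p.digits K).length := by
  have h := List.sum_le_card_nsmul (p.digits K) (p - 1) (by
    intro x hx
    have := Nat.digits_lt_base hp.one_lt hx
    omega)
  rw [smul_eq_mul, mul_comm] at h
  exact h

/-- ROW 4ae-C2 (Legendre: sub_one_mul_padicValNat_factorial, digit sum at most `(p-1)(log_p K + 1)`) -/
theorem legendre_low (p K : ℕ) (hp : p.Prime) (hK : 1 ≤ K) :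
    (K : ℝ) * (Real.log p / ((p : ℝ) - 1)) - Real.log K - Real.log p ≤
      (padicValNat p K.factorial : ℝ) * Real.log p := by
  have : Fact p.Prime := ⟨hp⟩
  have h1 := sub_one_mul_padicValNat_factorial (p := p) K
  have h2 := C2_digsum p K hp
  have h3 : (p.digits K).length = Nat.log p K + 1 := Nat.length_digits p K hp.one_lt (by omega)
  rw [h3] at h2
  have hp1 : (1 : ℝ) < p := by exact_mod_cast hp.one_lt
  have hlogp : 0 < Real.log p := Real.log_pos hp1
  have h4 : (Nat.log p K : ℝ) * Real.log p ≤ Real.log K := by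
    have h5 : p ^ (Nat.log p K) ≤ K := Nat.pow_log_le_self p (by omega)
    have h6 : ((p : ℝ)) ^ (Nat.log p K) ≤ K := by exact_mod_cast h5
    have h7 := Real.log_le_log (by positivity) h6
    rw [Real.log_pow] at h7
    exact h7
  have h8 : K ≤ (p - 1) * padicValNat p K.factorial + (p - 1) * (Nat.log p K + 1) := by
    omega
  have h9 : (K : ℝ) ≤ ((p : ℝ) - 1) * (padicValNat p K.factorial : ℝ) +
      ((p : ℝ) - 1) * ((Nat.log p K : ℝ) + 1) := by
    have h10 : ((p - 1 : ℕ) : ℝ) = (p : ℝ) - 1 := by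
      rw [Nat.cast_sub hp.one_lt.le]; simp
    have h11 : (K : ℝ) ≤ (((p - 1) * padicValNat p K.factorial + (p - 1) * (Nat.log p K + 1) : ℕ) : ℝ) := by
      exact_mod_cast h8
    push_cast at h11
    rw [Nat.cast_sub hp.one_lt.le] at h11
    simpa using h11
  have hpos : 0 < (p : ℝ) - 1 := by linarith
  have h12 : (K : ℝ) / ((p : ℝ) - 1) ≤ (padicValNat p K.factorial : ℝ) + ((Nat.log p K : ℝ) + 1) := by
    rw [div_le_iff₀ hpos]
    linarith
  have h13 := mul_le_mul_of_nonneg_right h12 hlogp.le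
  have h14 : (K : ℝ) * (Real.log p / ((p : ℝ) - 1)) = (K : ℝ) / ((p : ℝ) - 1) * Real.log p := by
    ring
  rw [h14]
  nlinarith

end Rid
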