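import Mathlib

set_option autoImplicit false

namespace Rid

/-- ROW 4ae-C3 (divergence; Nat.Primes.not_summable_one_div or a lower bound `log p / (p-1) ≥ c / p`) -/
theorem sum_log_div (X : ℝ) : ∃ S : Finset ℕ, (∀ p ∈ S, p.Prime) ∧ X ≤ ∑ p ∈ S, Real.log p / ((p : ℝ) - 1) := by
  by_contra hcon
  push Not at hcon
  have hb : ∀ p : Nat.Primes, (1 / p : ℝ) ≤ 2 * (Real.log p / ((p : ℝ) - 1)) := by
    intro p
    have hp : (2 : ℝ) ≤ (p : ℕ) := by exact_mod_cast p.2.two_le
    have h1 : Real.log 2 ≤ Real.log (p : ℕ) := Real.log_le_log (by norm_num) hp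
    have h2 := Real.log_two_gt_d9
    have h3 : (1 / 2 : ℝ) ≤ Real.log (p : ℕ) := by linarith
    have h4 : (0 : ℝ) < ((p : ℕ) : ℝ) - 1 := by linarith
    rw [← mul_div_assoc, div_le_div_iff₀ (by linarith) h4]
    nlinarith
  refine Nat.Primes.not_summable_one_div ?_
  have hs : Summable (fun p : Nat.Primes => 2 * (Real.log p / ((p : ℝ) - 1))) := by
    refine summable_of_sum_le (c := 2 * X) ?_ ?_
    · intro p
      refine le_trans ?_ (hb p)
      positivity
    · intro S
      rw [← Finset.mul_sum]
      refine mul_le_mul_of_nonneg_left ?_ (by norm_num)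
      have h := hcon (S.map ⟨fun p : Nat.Primes => (p : ℕ), Subtype.val_injective⟩) (by
        intro p hp
        rw [Finset.mem_map] at hp
        obtain ⟨q, _, rfl⟩ := hp
        exact q.2)
      rw [Finset.sum_map] at h
      exact h.le
  exact Summable.of_nonneg_of_le (fun p => by positivity) hb hs

end Rid
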