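import Mathlib

set_option autoImplicit false

namespace Rid

/-- ROW 4ae-C4 (sizes: `m₂ ^ k₂ < B(m₂,k₂) = B(m₁,k₁) ≤ (m₁+k₁) ^ k₁`) -/
theorem size_le (m₁ k₁ m₂ k₂ : ℕ) (hk : 1 ≤ k₂) (hm : m₁ + k₁ ≤ m₂) (hk1 : 1 ≤ k₁)
    (h : ∏ i ∈ Finset.Icc 1 k₁, (m₁ + i) = ∏ j ∈ Finset.Icc 1 k₂, (m₂ + j)) :
    (k₂ : ℝ) * Real.log m₂ < (k₁ : ℝ) * Real.log ((m₁ : ℝ) + k₁) := by
  have hm2 : 0 < m₂ := by omega
  have h1 : m₂ ^ k₂ < ∏ j ∈ Finset.Icc 1 k₂, (m₂ + j) := by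
    have h2 : ∏ _j ∈ Finset.Icc 1 k₂, m₂ < ∏ j ∈ Finset.Icc 1 k₂, (m₂ + j) := by
      refine Finset.prod_lt_prod_of_nonempty (fun _ _ => hm2) (fun j hj => ?_)
        (Finset.nonempty_Icc.2 hk)
      have := (Finset.mem_Icc.1 hj).1
      omega
    rwa [Finset.prod_const, Nat.card_Icc, Nat.add_sub_cancel] at h2
  have h3 : ∏ i ∈ Finset.Icc 1 k₁, (m₁ + i) ≤ (m₁ + k₁) ^ k₁ := by
    have h4 : ∏ i ∈ Finset.Icc 1 k₁, (m₁ + i) ≤ ∏ _i ∈ Finset.Icc 1 k₁, (m₁ + k₁) := by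
      refine Finset.prod_le_prod' fun i hi => ?_
      have := (Finset.mem_Icc.1 hi).2
      omega
    rwa [Finset.prod_const, Nat.card_Icc, Nat.add_sub_cancel] at h4
  have h5 : m₂ ^ k₂ < (m₁ + k₁) ^ k₁ := by
    rw [h] at h3
    exact lt_of_lt_of_le h1 h3
  have h6 : ((m₂ : ℝ)) ^ k₂ < ((m₁ : ℝ) + k₁) ^ k₁ := by exact_mod_cast h5
  have h7 := Real.log_lt_log (pow_pos (Nat.cast_pos.2 hm2) k₂) h6
  rwa [Real.log_pow, Real.log_pow] at h7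

end Rid
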