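import Pool.Agent.Lib.MP_4ae430_nt.R.Ridout
import Pool.Agent.Lib.MP_4ae430_nt.R.C1
import Pool.Agent.Lib.MP_4ae430_nt.R.C2
import Pool.Agent.Lib.MP_4ae430_nt.R.C3
import Pool.Agent.Lib.MP_4ae430_nt.R.C4
import Pool.Agent.Lib.MP_4ae430_nt.G1b

/-!
# The dichotomy for equal products of two disjoint blocks
-/

set_option autoImplicit false

namespace Rid

open Pool.Agent.Lib.MP_4ae430_nt

/-- `log x ≤ η x` for large `x` -/
theorem log_le_mul (η : ℝ) (hη : 0 < η) : ∃ X : ℝ, 1 ≤ X ∧ ∀ x : ℝ, X ≤ x → Real.log x ≤ η * x := by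
  have h1 := Real.isLittleO_log_id_atTop.def hη
  obtain ⟨X, hX⟩ := Filter.eventually_atTop.1 h1
  refine ⟨max X 1, le_max_right _ _, fun x hx => ?_⟩
  have h2 := hX x ((le_max_left _ _).trans hx)
  have h3 : 1 ≤ x := (le_max_right _ _).trans hx
  simp only [id, Real.norm_eq_abs] at h2
  rw [abs_of_nonneg (Real.log_nonneg h3), abs_of_nonneg (by linarith : (0:ℝ) ≤ x)] at h2
  exact h2

/-- `C * log x < x ^ δ` for large `x` -/
theorem log_lt_rpow (C δ : ℝ) (hδ : 0 < δ) : ∃ X : ℝ, 1 ≤ X ∧ ∀ x : ℝ, X ≤ x → C * Real.log x < x ^ δ := by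
  have h1 := (isLittleO_log_rpow_atTop hδ).def (c := 1 / (2 * (|C| + 1))) (by positivity)
  obtain ⟨X, hX⟩ := Filter.eventually_atTop.1 h1
  refine ⟨max X 1, le_max_right _ _, fun x hx => ?_⟩
  have h2 := hX x ((le_max_left _ _).trans hx)
  have h3 : 1 ≤ x := (le_max_right _ _).trans hx
  have h4 : 0 < x ^ δ := Real.rpow_pos_of_pos (by linarith) _
  have h5 := Real.log_nonneg h3
  rw [Real.norm_eq_abs, Real.norm_eq_abs, abs_of_nonneg h5, abs_of_pos h4] at h2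
  have h6 : |C| * Real.log x ≤ |C| * (1 / (2 * (|C| + 1)) * x ^ δ) := mul_le_mul_of_nonneg_left h2 (abs_nonneg _)
  have h7 : |C| * (1 / (2 * (|C| + 1)) * x ^ δ) ≤ 1 / 2 * x ^ δ := by
    have h8 : |C| * (1 / (2 * (|C| + 1))) ≤ 1 / 2 := by
      rw [mul_one_div, div_le_iff₀ (by positivity)]
      linarith
    calc |C| * (1 / (2 * (|C| + 1)) * x ^ δ) = |C| * (1 / (2 * (|C| + 1))) * x ^ δ := by ring
      _ ≤ 1 / 2 * x ^ δ := mul_le_mul_of_nonneg_right h8 h4.le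
  have h9 : C * Real.log x ≤ |C| * Real.log x := mul_le_mul_of_nonneg_right (le_abs_self C) h5
  linarith

/-- only finitely many solutions have `k₂ ≥ m₂ ^ δ` -/
theorem upper_short (δ : ℝ) (hδ : 0 < δ) : ∃ M : ℕ, ∀ m₁ k₁ m₂ k₂ : ℕ, Sol m₁ k₁ m₂ k₂ → k₂ < k₁ → M ≤ m₂ →
    (k₂ : ℝ) < (m₂ : ℝ) ^ δ := by
  obtain ⟨C, hC⟩ := short_upper δ hδ
  obtain ⟨X, hX1, hX⟩ := log_lt_rpow |C| δ hδ
  refine ⟨⌈X⌉₊, fun m₁ k₁ m₂ k₂ hsol hk hM => ?_⟩
  by_contra hcon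
  push Not at hcon
  have hm2 : X ≤ (m₂ : ℝ) := (Nat.le_ceil X).trans (by exact_mod_cast hM)
  have hsol' := hsol
  obtain ⟨-, h1, h2, h3⟩ := hsol'
  have hk1R : (k₂ : ℝ) ≤ (k₁ : ℝ) := by exact_mod_cast hk.le
  have h4 : ((m₁ : ℝ) + (k₁ : ℝ)) ^ δ ≤ (m₂ : ℝ) ^ δ :=
    Real.rpow_le_rpow (by positivity) (by exact_mod_cast h3) hδ.le
  have h5 := hC m₁ k₁ m₂ k₂ hsol (by linarith)
  have h6 : Real.log (k₁ : ℝ) ≤ Real.log (m₂ : ℝ) :=
    Real.log_le_log (by exact_mod_cast (by omega : 0 < k₁)) (by exact_mod_cast (by omega : k₁ ≤ m₂))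
  have h7 : 0 ≤ Real.log (k₁ : ℝ) := Real.log_nonneg (by exact_mod_cast (by omega : 1 ≤ k₁))
  have h8 := hX m₂ hm2
  have h9 : C * Real.log (k₁ : ℝ) ≤ |C| * Real.log (m₂ : ℝ) :=
    (mul_le_mul_of_nonneg_right (le_abs_self C) h7).trans (mul_le_mul_of_nonneg_left h6 (abs_nonneg _))
  linarith

/-- in every solution `k₂ < k₁` -/
theorem sol_lt {m₁ k₁ m₂ k₂ : ℕ} (h : Sol m₁ k₁ m₂ k₂) : k₂ < k₁ := by
  obtain ⟨h0, h1, h2, h3⟩ := h
  unfold B at h0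
  have h4 := size_le m₁ k₁ m₂ k₂ (by omega) h3 (by omega) h0
  by_contra hcon
  push Not at hcon
  have h5 : (k₁ : ℝ) ≤ (k₂ : ℝ) := by exact_mod_cast hcon
  have h6 : Real.log ((m₁ : ℝ) + k₁) ≤ Real.log (m₂ : ℝ) :=
    Real.log_le_log (by
      have : (0 : ℝ) < (k₁ : ℝ) := by exact_mod_cast (by omega : 0 < k₁)
      positivity) (by exact_mod_cast h3)
  have h7 : 0 ≤ Real.log (m₂ : ℝ) := Real.log_nonneg (by exact_mod_cast (by omega : 1 ≤ m₂))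
  have h8 : (k₁ : ℝ) * Real.log ((m₁ : ℝ) + k₁) ≤ (k₂ : ℝ) * Real.log m₂ :=
    mul_le_mul h5 h6 (Real.log_nonneg (by
      have : (1 : ℝ) ≤ (k₁ : ℝ) := by exact_mod_cast (by omega : 1 ≤ k₁)
      have h9 : (0 : ℝ) ≤ m₁ := Nat.cast_nonneg _
      linarith)) (Nat.cast_nonneg _)
  linarith

/-- Theorem A: only finitely many solutions have `k₂ (k₁ - k₂) > η k₁ log (m₁ + k₁)`; here in the form `m₂ < M`. -/
theorem theoremA (η : ℝ) (hη : 0 < η) : ∃ M : ℕ, ∀ m₁ k₁ m₂ k₂ : ℕ, Sol m₁ k₁ m₂ k₂ →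
    η * k₁ * Real.log ((m₁ : ℝ) + k₁) < (k₂ : ℝ) * ((k₁ : ℝ) - k₂) → m₂ < M := by
  obtain ⟨S, hS, hSX⟩ := sum_log_div (2 / η + 2)
  obtain ⟨δ, hδ, N₀, hrid⟩ := ridout S hS 1 one_pos
  obtain ⟨M₁, hM₁⟩ := upper_short δ hδ
  set L : ℝ := ∑ p ∈ S, Real.log p with hL
  have hL0 : 0 ≤ L := Finset.sum_nonneg fun p hp => Real.log_nonneg (by exact_mod_cast (hS p hp).one_lt.le)
  obtain ⟨X, hX1, hX⟩ := log_le_mul (1 / ((S.card : ℝ) + 1)) (by positivity)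
  -- `K` is at most `K₀ := max X (L + 1)`
  set K₀ : ℝ := max X (L + 1) with hK₀
  refine ⟨max (max N₀ M₁) (⌈Real.exp (K₀ / η)⌉₊ + 1), fun m₁ k₁ m₂ k₂ hsol hbig => ?_⟩
  by_contra hcon
  push Not at hcon
  have hkk := sol_lt hsol
  have hsol' := hsol
  obtain ⟨h0, h1, h2, h3⟩ := hsol'
  have hN0 : N₀ ≤ m₂ := le_trans (le_trans (le_max_left _ _) (le_max_left _ _)) hcon
  have hM1 : M₁ ≤ m₂ := le_trans (le_trans (le_max_right _ _) (le_max_left _ _)) hcon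
  have hexp : Real.exp (K₀ / η) ≤ (m₂ : ℝ) := by
    refine (Nat.le_ceil _).trans ?_
    have : ⌈Real.exp (K₀ / η)⌉₊ ≤ m₂ := by
      have := le_trans (le_max_right _ _) hcon
      omega
    exact_mod_cast this
  have hm2pos : (0 : ℝ) < m₂ := lt_of_lt_of_le (Real.exp_pos _) hexp
  have hlogm2 : K₀ / η ≤ Real.log m₂ := by
    rw [Real.le_log_iff_exp_le hm2pos]
    exact hexp
  have hshort := hM₁ m₁ k₁ m₂ k₂ hsol hkk hM1
  unfold B at h0
  have hsize := size_le m₁ k₁ m₂ k₂ (by omega) h3 (by omega) h0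
  set K : ℕ := k₁ - k₂ with hK
  have hKR : (K : ℝ) = (k₁ : ℝ) - k₂ := by rw [hK, Nat.cast_sub hkk.le]
  have hk2pos : (0 : ℝ) < k₂ := by exact_mod_cast (by omega : 0 < k₂)
  -- `η log m₂ < K`
  have hKlog : η * Real.log m₂ < K := by
    have h4 : η * ((k₂ : ℝ) * Real.log m₂) < (k₂ : ℝ) * K := by
      rw [hKR]
      have := mul_lt_mul_of_pos_left hsize hη
      linarith
    have h5 : (k₂ : ℝ) * (η * Real.log m₂) < (k₂ : ℝ) * K := by linarith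
    exact lt_of_mul_lt_mul_left h5 hk2pos.le
  have hK0 : K₀ < K := by
    have h4 := mul_le_mul_of_nonneg_left hlogm2 hη.le
    have h5 : η * (K₀ / η) = K₀ := by field_simp
    linarith
  have hKX : X ≤ K := (le_max_left _ _).trans hK0.le
  have hK1 : 1 ≤ K := by omega
  -- the indices
  have hidx : ∀ p ∈ S, ∃ j, 1 ≤ j ∧ j ≤ k₂ ∧ p ^ (padicValNat p K.factorial) ∣ m₂ + j := fun p hp =>
    block_index m₁ k₁ m₂ k₂ hkk (by omega) h0 p (hS p hp)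
  choose! j hj1 hj2 hj3 using hidx
  have hr := hrid m₂ hN0 (fun p => (j p : ℤ)) (fun p => padicValNat p K.factorial)
    (fun p hp => by
      have h4 : (j p : ℝ) ≤ k₂ := by exact_mod_cast hj2 p hp
      rw [Int.cast_natCast, abs_of_nonneg (Nat.cast_nonneg _)]
      linarith)
    (fun p hp => by exact_mod_cast hj3 p hp)
  -- Legendre
  have hleg : ∑ p ∈ S, ((K : ℝ) * (Real.log p / ((p : ℝ) - 1)) - Real.log K - Real.log p) ≤
      ∑ p ∈ S, (padicValNat p K.factorial : ℝ) * Real.log p :=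
    Finset.sum_le_sum fun p hp => legendre_low p K (hS p hp) hK1
  rw [Finset.sum_sub_distrib, Finset.sum_sub_distrib, ← Finset.mul_sum, Finset.sum_const, nsmul_eq_mul] at hleg
  have hKpos : (0 : ℝ) < K := by exact_mod_cast hK1
  have h6 : (K : ℝ) * (2 / η + 2) ≤ (K : ℝ) * ∑ p ∈ S, Real.log p / ((p : ℝ) - 1) :=
    mul_le_mul_of_nonneg_left hSX hKpos.le
  have h7 : (S.card : ℝ) * Real.log K ≤ K := by
    have h8 := hX K hKX
    have h9 : (S.card : ℝ) * Real.log K ≤ (S.card : ℝ) * (1 / ((S.card : ℝ) + 1) * K) :=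
      mul_le_mul_of_nonneg_left h8 (Nat.cast_nonneg _)
    have h10 : (S.card : ℝ) * (1 / ((S.card : ℝ) + 1)) ≤ 1 := by
      rw [mul_one_div, div_le_iff₀ (by positivity)]
      linarith
    calc (S.card : ℝ) * Real.log K ≤ (S.card : ℝ) * (1 / ((S.card : ℝ) + 1) * K) := h9
      _ = ((S.card : ℝ) * (1 / ((S.card : ℝ) + 1))) * K := by ring
      _ ≤ 1 * K := mul_le_mul_of_nonneg_right h10 hKpos.le
      _ = K := one_mul _
  have h8 : L < K := by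
    have : L + 1 ≤ K₀ := le_max_right _ _
    linarith
  have h9 : (1 + 1) * Real.log m₂ < 2 / η * K := by
    have h10 : Real.log m₂ < K / η := by
      rw [lt_div_iff₀ hη]
      linarith
    calc (1 + 1) * Real.log m₂ = 2 * Real.log m₂ := by ring
      _ < 2 * (K / η) := by linarith
      _ = 2 / η * K := by ring
  rw [← hL] at hleg
  have h11 : (K : ℝ) * (2 / η + 2) = 2 / η * K + 2 * K := by ring
  linarith

/-- bounded `m₁ + k₁`: finitely many solutions -/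
theorem finite_of_bound (A : ℕ) : {x : ℕ × ℕ × ℕ × ℕ | Sol x.1 x.2.1 x.2.2.1 x.2.2.2 ∧ x.1 + x.2.1 ≤ A}.Finite := by
  -- `m₂ < B m₂ k₂ = B m₁ k₁ ≤ A ^ A`, `k₂ < k₁ ≤ A`
  refine Set.Finite.subset (((Set.finite_Iic A).prod ((Set.finite_Iic A).prod
    ((Set.finite_Iic (A ^ A)).prod (Set.finite_Iic A))))) ?_
  rintro ⟨m₁, k₁, m₂, k₂⟩ ⟨hsol, hA⟩
  simp only at hsol hA
  have hkk := sol_lt hsol
  obtain ⟨h0, h1, h2, h3⟩ := hsol
  have h4 : B m₁ k₁ ≤ A ^ A := by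
    unfold B
    calc ∏ i ∈ Finset.Icc 1 k₁, (m₁ + i) ≤ ∏ _i ∈ Finset.Icc 1 k₁, A :=
          Finset.prod_le_prod' fun i hi => by
            have := (Finset.mem_Icc.1 hi).2
            omega
      _ = A ^ k₁ := by rw [Finset.prod_const, Nat.card_Icc, Nat.add_sub_cancel]
      _ ≤ A ^ A := Nat.pow_le_pow_right (by omega) (by omega)
  have h5 : m₂ ≤ B m₂ k₂ := by
    unfold B
    have h6 : m₂ + 1 ∣ ∏ i ∈ Finset.Icc 1 k₂, (m₂ + i) :=
      Finset.dvd_prod_of_mem (fun i => m₂ + i) (Finset.mem_Icc.2 ⟨le_rfl, by omega⟩)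
    have h7 := Nat.le_of_dvd (Finset.prod_pos fun i hi => by
      have := (Finset.mem_Icc.1 hi).1
      omega) h6
    omega
  simp only [Set.mem_prod, Set.mem_Iic]
  exact ⟨by omega, by omega, by rw [← h0] at h5; exact h5.trans h4, by omega⟩

/-- The dichotomy. -/
theorem dichotomy (η : ℝ) (hη : 0 < η) :
    {x : ℕ × ℕ × ℕ × ℕ | Sol x.1 x.2.1 x.2.2.1 x.2.2.2 ∧
      ¬ ((x.2.2.2 : ℝ) ≤ η * Real.log ((x.1 : ℝ) + x.2.1) ∨
        ((x.2.1 : ℝ) - x.2.2.2 ≤ η * Real.log ((x.1 : ℝ) + x.2.1) ∧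
          (x.2.1 : ℝ) ≤ ((x.1 : ℝ) + x.2.1) ^ η))}.Finite := by
  obtain ⟨M, hM⟩ := theoremA (η / 2) (by positivity)
  obtain ⟨C, hC⟩ := short_upper η hη
  obtain ⟨X, hX1, hX⟩ := log_lt_rpow (2 * |C|) 1 one_pos
  -- a bound for `m₁ + k₁` when `k₁ < X`, `(m₁ + k₁) ^ η < k₁`
  refine Set.Finite.subset (finite_of_bound (max M ⌈X ^ (1 / η)⌉₊)) ?_
  rintro ⟨m₁, k₁, m₂, k₂⟩ ⟨hsol, hx⟩
  simp only at hsol hx
  refine ⟨hsol, ?_⟩
  simp only
  by_contra hcon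
  push Not at hcon
  apply hx
  have hkk := sol_lt hsol
  have hsol' := hsol
  obtain ⟨h0, h1, h2, h3⟩ := hsol'
  have hMm : M ≤ m₂ := by
    have := lt_of_le_of_lt (le_max_left M ⌈X ^ (1 / η)⌉₊) hcon
    omega
  have hA : (k₂ : ℝ) * ((k₁ : ℝ) - k₂) ≤ η / 2 * k₁ * Real.log ((m₁ : ℝ) + k₁) := by
    by_contra h4
    push Not at h4
    exact absurd (hM m₁ k₁ m₂ k₂ hsol h4) (by omega)
  have hk1R : (1 : ℝ) ≤ k₁ := by exact_mod_cast (by omega : 1 ≤ k₁)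
  have hm1R : (0 : ℝ) ≤ m₁ := Nat.cast_nonneg _
  have hlog : 0 ≤ Real.log ((m₁ : ℝ) + k₁) := Real.log_nonneg (by linarith)
  have hk2R : (0 : ℝ) < k₂ := by exact_mod_cast (by omega : 0 < k₂)
  rcases le_or_gt ((k₂ : ℝ)) ((k₁ : ℝ) / 2) with hc | hc
  · left
    have h5 : (k₂ : ℝ) * ((k₁ : ℝ) / 2) ≤ (k₂ : ℝ) * ((k₁ : ℝ) - k₂) :=
      mul_le_mul_of_nonneg_left (by linarith) hk2R.le
    have h6 : (k₁ : ℝ) / 2 * (k₂ : ℝ) ≤ (k₁ : ℝ) / 2 * (η * Real.log ((m₁ : ℝ) + k₁)) := by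
      calc (k₁ : ℝ) / 2 * (k₂ : ℝ) = (k₂ : ℝ) * ((k₁ : ℝ) / 2) := mul_comm _ _
        _ ≤ η / 2 * k₁ * Real.log ((m₁ : ℝ) + k₁) := h5.trans hA
        _ = (k₁ : ℝ) / 2 * (η * Real.log ((m₁ : ℝ) + k₁)) := by ring
    exact le_of_mul_le_mul_left h6 (by linarith)
  · right
    refine ⟨?_, ?_⟩
    · have h5 : (k₂ : ℝ) * ((k₁ : ℝ) - k₂) ≤ (k₂ : ℝ) * (η * Real.log ((m₁ : ℝ) + k₁)) := by
        have h6 : η / 2 * k₁ * Real.log ((m₁ : ℝ) + k₁) ≤ η * k₂ * Real.log ((m₁ : ℝ) + k₁) :=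
          mul_le_mul_of_nonneg_right (by nlinarith) hlog
        linarith
      exact le_of_mul_le_mul_left h5 hk2R
    · by_contra h5
      push Not at h5
      have h6 := hC m₁ k₁ m₂ k₂ hsol h5.le
      have hlogk : 0 ≤ Real.log (k₁ : ℝ) := Real.log_nonneg hk1R
      have h7 : (k₁ : ℝ) < X := by
        by_contra h8
        push Not at h8
        have h9 := hX k₁ h8
        rw [Real.rpow_one] at h9
        have h10 : C * Real.log (k₁ : ℝ) ≤ |C| * Real.log (k₁ : ℝ) :=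
          mul_le_mul_of_nonneg_right (le_abs_self C) hlogk
        linarith
      have h8 : ((m₁ : ℝ) + k₁) < X ^ (1 / η) := by
        have h9 : ((m₁ : ℝ) + k₁) ^ η < X := h5.trans h7
        have h10 : (((m₁ : ℝ) + k₁) ^ η) ^ (1 / η) < X ^ (1 / η) :=
          Real.rpow_lt_rpow (by positivity) h9 (by positivity)
        rwa [← Real.rpow_mul (by linarith), mul_one_div_cancel hη.ne', Real.rpow_one] at h10
      have h9 : ((m₁ + k₁ : ℕ) : ℝ) < (⌈X ^ (1 / η)⌉₊ : ℝ) := by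
        push_cast
        exact h8.trans_le (Nat.le_ceil _)
      have h10 : m₁ + k₁ < ⌈X ^ (1 / η)⌉₊ := by exact_mod_cast h9
      have h11 := lt_of_le_of_lt (le_max_right M ⌈X ^ (1 / η)⌉₊) hcon
      omega

end Rid
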