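import Pool.Agent.Lib.MP_4ae430_nt.R.Defs

set_option autoImplicit false

namespace Rid

open MvPolynomial

theorem A1_prod_monomial {m : ℕ} {R : Type} [CommRing R] (s : Finset (Fin m))
    (f : Fin m → (Fin m →₀ ℕ)) (g : Fin m → R) :
    ∏ h ∈ s, monomial (f h) (g h) = monomial (∑ h ∈ s, f h) (∏ h ∈ s, g h) := by
  classical
  induction s using Finset.induction_on with
  | empty => simp
  | insert a s ha ih =>
    rw [Finset.prod_insert ha, Finset.sum_insert ha, Finset.prod_insert ha, ih, monomial_mul]

theorem A1_pow {m : ℕ} {R : Type} [CommRing R] (b : R) (h : Fin m) (n : ℕ) :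
    (X h + C b : MvPolynomial (Fin m) R) ^ n =
      ∑ k ∈ Finset.range (n + 1), monomial (Finsupp.single h k) (b ^ (n - k) * (n.choose k : R)) := by
  rw [add_pow]
  refine Finset.sum_congr rfl fun k _ => ?_
  have h1 : ((n.choose k : ℕ) : MvPolynomial (Fin m) R) = C (n.choose k : R) := by
    rw [map_natCast]
  rw [h1, ← C_pow, mul_assoc, ← C_mul, mul_comm, C_mul_X_pow_eq_monomial]

theorem A1_prod {m : ℕ} {R : Type} [CommRing R] (β : Fin m → R) (J L : Fin m →₀ ℕ) :
    coeff J (∏ h, (X h + C (β h) : MvPolynomial (Fin m) R) ^ (L h)) =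
      (bin L J : R) * (∏ h, β h ^ (L h - J h)) := by
  classical
  have h0 : ∏ h, (X h + C (β h) : MvPolynomial (Fin m) R) ^ (L h) =
      ∏ h, ∑ k ∈ Finset.range (L h + 1),
        monomial (Finsupp.single h k) (β h ^ (L h - k) * ((L h).choose k : R)) :=
    Finset.prod_congr rfl fun h _ => A1_pow (β h) h (L h)
  rw [h0, Finset.prod_univ_sum, coeff_sum]
  have h2 : ∀ k ∈ Fintype.piFinset (fun h => Finset.range (L h + 1)),
      coeff J (∏ h, monomial (Finsupp.single h (k h)) (β h ^ (L h - k h) * ((L h).choose (k h) : R)))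
        = if (J : Fin m → ℕ) = k then (bin L J : R) * ∏ h, β h ^ (L h - J h) else 0 := by
    intro k _
    have h3 : (∑ h, Finsupp.single h (k h)) = Finsupp.equivFunOnFinite.symm k := by
      have := Finsupp.univ_sum_single (Finsupp.equivFunOnFinite.symm k)
      simpa using this
    rw [A1_prod_monomial, coeff_monomial, h3]
    have h4 : (Finsupp.equivFunOnFinite.symm k = J) ↔ (J : Fin m → ℕ) = k := by
      constructor
      · rintro rfl; rfl
      · rintro rfl; ext; simp
    by_cases hk : (J : Fin m → ℕ) = k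
    · rw [if_pos (h4.2 hk), if_pos hk, Finset.prod_mul_distrib, mul_comm]
      subst hk
      simp [bin]
    · rw [if_neg (fun hh => hk (h4.1 hh)), if_neg hk]
  rw [Finset.sum_congr rfl h2, Finset.sum_ite_eq]
  split_ifs with hJ
  · rfl
  · have : ¬ J ≤ L := by
      intro hle
      apply hJ
      rw [Fintype.mem_piFinset]
      intro h
      exact Finset.mem_range.2 (Nat.lt_succ_of_le (hle h))
    rw [bin_eq_zero this]
    simp

/-- ROW 4ae-A1. Coefficients of `P(X+β)`. Both sides are additive in `P` (write the sum over `P.support` as `Finsupp.sum` or extend it to a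
larger finite set); for a monomial `a X^L`: `∏ (X h + β h)^(L h)`, the binomial theorem in each variable. -/
theorem coeff_tay_sum {m : ℕ} {R : Type} [CommRing R] (β : Fin m → R) (J : Fin m →₀ ℕ)
    (P : MvPolynomial (Fin m) R) :
    coeff J (tay β P) = ∑ L ∈ P.support, (bin L J : R) * (∏ h, β h ^ (L h - J h)) * coeff L P := by
  unfold tay
  rw [aeval_def, eval₂_eq', coeff_sum]
  refine Finset.sum_congr rfl fun L _ => ?_
  rw [algebraMap_eq, coeff_C_mul, A1_prod, mul_comm]

theorem tay_tay {m : ℕ} {R : Type} [CommRing R] (β γ : Fin m → R) (P : MvPolynomial (Fin m) R) :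
    tay β (tay γ P) = tay (β + γ) P := by
  have h : (tay β).comp (tay γ) = tay (β + γ) := by
    apply algHom_ext
    intro i
    simp only [tay, AlgHom.comp_apply, aeval_X, map_add, aeval_C, algebraMap_eq, Pi.add_apply, C_add]
    ring
  rw [← h]
  rfl

theorem map_tay {m : ℕ} {R R' : Type} [CommRing R] [CommRing R'] (f : R →+* R') (β : Fin m → R)
    (P : MvPolynomial (Fin m) R) : map f (tay β P) = tay (fun h => f (β h)) (map f P) := by
  induction P using MvPolynomial.induction_on with
  | C a => simp [tay]
  | add p q hp hq => simp only [map_add, hp, hq]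
  | mul_X p i hp =>
    rw [map_mul, map_mul, hp, map_mul, map_mul]
    simp [tay]

end Rid
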