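import Pool.Agent.Lib.MP_4ae430_nt.R.Defs

set_option autoImplicit false

namespace Rid

open MvPolynomial

/-- ROW 4ae-A4 -/
theorem natAbs_coeff_le_l1 {m : ℕ} (P : MvPolynomial (Fin m) ℤ) (I : Fin m →₀ ℕ) :
    (coeff I P).natAbs ≤ l1 P := by
  unfold l1
  by_cases hI : I ∈ P.support
  · exact Finset.single_le_sum (f := fun J => (coeff J P).natAbs) (fun _ _ => Nat.zero_le _) hI
  · rw [notMem_support_iff.1 hI]
    simp

theorem l1_pos {m : ℕ} {P : MvPolynomial (Fin m) ℤ} (hP : P ≠ 0) : 1 ≤ l1 P := by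
  obtain ⟨I, hI⟩ := ne_zero_iff.1 hP
  exact le_trans (Nat.one_le_iff_ne_zero.2 (Int.natAbs_ne_zero.2 hI)) (natAbs_coeff_le_l1 P I)

/-- `bin L J ≤ 2 ^ ∑ r` when `L ≤ r` -/
theorem bin_le {m : ℕ} (r : Fin m → ℕ) (L J : Fin m →₀ ℕ) (hL : ∀ h, L h ≤ r h) : bin L J ≤ 2 ^ (∑ h, r h) := by
  unfold bin
  rw [← Finset.prod_pow_eq_pow_sum]
  exact Finset.prod_le_prod' (fun h _ => le_trans (Nat.choose_le_two_pow _ _)
    (Nat.pow_le_pow_right (by norm_num) (hL h)))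

end Rid
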