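import Mathlib

set_option autoImplicit false

namespace Rid

/-- ROW 4ae-B1 (pigeonhole). With `x p = a p * log p / log N`, capped at `2` and rounded down to multiples of `ε / (4 |S|)`
(grid: `l p = ε/(4|S|) * ⌊4|S|/ε * min (x p) 2⌋₊`), there are finitely many classes; one of them occurs for arbitrarily large `N`.
If some `x p ≥ 2` then `l p ≥ 2 - ε/4 ≥ 1 + ε/2`; otherwise `∑ l p ≥ 1 + ε - ε/4`. (`S` is nonempty by the hypothesis for large `N`.) -/
theorem pigeon (S : Finset ℕ) (ε : ℝ) (hε : 0 < ε) (hε1 : ε ≤ 1)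
    (Q : ℕ → (ℕ → ℤ) → (ℕ → ℕ) → Prop)
    (hbad : ∀ N₀ : ℕ, ∃ N ≥ N₀, ∃ (c : ℕ → ℤ) (a : ℕ → ℕ), Q N c a ∧
      (1 + ε) * Real.log N ≤ ∑ p ∈ S, (a p : ℝ) * Real.log p) :
    ∃ l : ℕ → ℝ, (∀ p ∈ S, 0 ≤ l p) ∧ 1 + ε / 2 ≤ ∑ p ∈ S, l p ∧
      ∀ N₀ : ℕ, ∃ N ≥ N₀, ∃ (c : ℕ → ℤ) (a : ℕ → ℕ), Q N c a ∧
        ∀ p ∈ S, l p * Real.log N ≤ (a p : ℝ) * Real.log p := by
  classical
  have hlog : ∀ N : ℕ, 2 ≤ N → 0 < Real.log (N : ℝ) := fun N h => Real.log_pos (by exact_mod_cast h)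
  -- S is nonempty
  have hS : S.Nonempty := by
    rw [Finset.nonempty_iff_ne_empty]
    rintro rfl
    obtain ⟨N, hN, c, a, _, h⟩ := hbad 2
    simp only [Finset.sum_empty] at h
    have := hlog N hN
    nlinarith
  have hc : 0 < (S.card : ℝ) := by exact_mod_cast hS.card_pos
  set t : ℝ := ε / (4 * S.card) with ht
  have htpos : 0 < t := by positivity
  choose N hN c a hQ hb using fun n : ℕ => hbad (max n 2)
  have hN2 : ∀ n, 2 ≤ N n := fun n => (le_max_right _ _).trans (hN n)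
  set x : ℕ → ℕ → ℝ := fun n p => min ((a n p : ℝ) * Real.log p / Real.log (N n)) 2 with hx
  have hx0 : ∀ n p, 0 ≤ x n p := fun n p => by
    refine le_min (div_nonneg (mul_nonneg (Nat.cast_nonneg _) (Real.log_natCast_nonneg p)) (hlog _ (hN2 n)).le)
      (by norm_num)
  set K : ℕ := ⌊2 / t⌋₊ with hK
  have hkK : ∀ n p, ⌊x n p / t⌋₊ ≤ K := fun n p => by
    apply Nat.floor_le_floor
    exact div_le_div_of_nonneg_right (min_le_right _ _) htpos.le
  let f : ℕ → (S → Fin (K + 1)) := fun n p => ⟨⌊x n p / t⌋₊, Nat.lt_succ_of_le (hkK n p)⟩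
  obtain ⟨κ, hκ⟩ := Finite.exists_infinite_fiber f
  have hinf : (f ⁻¹' {κ}).Infinite := Set.infinite_coe_iff.mp hκ
  obtain ⟨n₀, hn₀⟩ := hinf.nonempty
  -- the class
  have key : ∀ n, f n = κ → ∀ p ∈ S, (⌊x n p / t⌋₊ : ℝ) = (⌊x n₀ p / t⌋₊ : ℝ) := by
    intro n hn p hp
    have h1 : f n = f n₀ := hn.trans (Set.mem_singleton_iff.mp hn₀).symm
    have h2 := congrArg Fin.val (congrFun h1 ⟨p, hp⟩)
    simp only [f] at h2
    exact_mod_cast h2
  refine ⟨fun p => t * ⌊x n₀ p / t⌋₊, fun p _ => by positivity, ?_, ?_⟩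
  · have h1 : ∀ p ∈ S, x n₀ p - t ≤ t * ⌊x n₀ p / t⌋₊ := by
      intro p _
      have h2 := Nat.lt_floor_add_one (x n₀ p / t)
      rw [div_lt_iff₀ htpos] at h2
      nlinarith
    have h2 := Finset.sum_le_sum h1
    rw [Finset.sum_sub_distrib, Finset.sum_const, nsmul_eq_mul] at h2
    have h3 : (S.card : ℝ) * t = ε / 4 := by rw [ht]; field_simp
    rw [h3] at h2
    have h4 : 1 + ε ≤ ∑ p ∈ S, x n₀ p := by
      by_cases h5 : ∃ p ∈ S, 2 ≤ (a n₀ p : ℝ) * Real.log p / Real.log (N n₀)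
      · obtain ⟨p, hp, h6⟩ := h5
        have h7 : x n₀ p = 2 := min_eq_right h6
        have h8 := Finset.single_le_sum (f := fun p => x n₀ p) (fun q _ => hx0 n₀ q) hp
        rw [h7] at h8
        linarith
      · push Not at h5
        have h6 : ∀ p ∈ S, x n₀ p = (a n₀ p : ℝ) * Real.log p / Real.log (N n₀) :=
          fun p hp => min_eq_left (h5 p hp).le
        rw [Finset.sum_congr rfl h6, ← Finset.sum_div, le_div_iff₀ (hlog _ (hN2 n₀))]
        exact hb n₀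
    linarith
  · intro N₀
    obtain ⟨n, hn, hn'⟩ := hinf.exists_gt N₀
    have hn1 : f n = κ := hn
    refine ⟨N n, hn'.le.trans ((le_max_left _ _).trans (hN n)), c n, a n, hQ n, ?_⟩
    intro p hp
    show t * (⌊x n₀ p / t⌋₊ : ℝ) * Real.log (N n) ≤ (a n p : ℝ) * Real.log p
    rw [← key n hn1 p hp]
    have h1 := Nat.floor_le (div_nonneg (hx0 n p) htpos.le)
    rw [le_div_iff₀ htpos] at h1
    have h2 : t * ⌊x n p / t⌋₊ ≤ (a n p : ℝ) * Real.log p / Real.log (N n) := by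
      rw [mul_comm]
      exact h1.trans (min_le_left _ _)
    rw [le_div_iff₀ (hlog _ (hN2 n))] at h2
    exact h2

end Rid
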