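import Mathlib

set_option autoImplicit false

namespace Rid

/-- ROW 4ae-B2 (growth). Choose `N (m-1)`, then `N (m-2)`, ...; induction on `m` (Fin.cons). -/
theorem growth {α : Type*} (Q : ℕ → α → Prop) (hQ : ∀ N₀ : ℕ, ∃ N ≥ N₀, ∃ x, Q N x) (m : ℕ) (G : ℝ) (hG : 1 ≤ G) (N₀ : ℕ) :
    ∃ (N : Fin m → ℕ) (x : Fin m → α), (∀ h, N₀ ≤ N h ∧ Q (N h) (x h)) ∧
      ∀ i j, i < j → G * Real.log (N j) ≤ Real.log (N i) := by
  induction m with
  | zero => exact ⟨Fin.elim0, Fin.elim0, fun h => h.elim0, fun i => i.elim0⟩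
  | succ m ih =>
    obtain ⟨N, x, h1, h2⟩ := ih
    have h3 : Filter.Tendsto (fun n : ℕ => Real.log (n : ℝ)) Filter.atTop Filter.atTop :=
      Real.tendsto_log_atTop.comp tendsto_natCast_atTop_atTop
    have h4 : ∀ᶠ n : ℕ in Filter.atTop, ∀ j : Fin m, G * Real.log (N j) ≤ Real.log (n : ℝ) := by
      rw [Filter.eventually_all]
      intro j
      exact h3.eventually_ge_atTop _
    obtain ⟨M, hM⟩ := Filter.eventually_atTop.mp h4
    obtain ⟨N', hN', y, hy⟩ := hQ (max M N₀)
    refine ⟨Fin.cons N' N, Fin.cons y x, ?_, ?_⟩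
    · intro h
      refine Fin.cases ?_ ?_ h
      · simp only [Fin.cons_zero]
        exact ⟨(le_max_right _ _).trans hN', hy⟩
      · intro i
        simp only [Fin.cons_succ]
        exact h1 i
    · intro i j
      refine Fin.cases ?_ ?_ i
      · refine Fin.cases ?_ ?_ j
        · intro h; exact absurd h (lt_irrefl _)
        · intro j' _
          simp only [Fin.cons_zero, Fin.cons_succ]
          exact hM N' ((le_max_left _ _).trans hN') j'
      · intro i'
        refine Fin.cases ?_ ?_ j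
        · intro h; exact absurd h (Fin.not_lt_zero _)
        · intro j' h
          simp only [Fin.cons_succ]
          exact h2 i' j' (Fin.succ_lt_succ_iff.mp h)

end Rid
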