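import Pool.Agent.Lib.MP_28dc30_nt.Count

set_option autoImplicit false

namespace Rid

theorem B3_sum (r : ℕ) (hr : 1 ≤ r) :
    ∑ v ∈ Finset.range (r + 1), (2 * (v : ℝ) / r - 1) = 0 := by
  have hr0 : (r : ℝ) ≠ 0 := by
    have : (1 : ℝ) ≤ r := by exact_mod_cast hr
    positivity
  have h1 : ∑ v ∈ Finset.range (r + 1), (v : ℝ) = r * (r + 1) / 2 := by
    have h := Finset.sum_range_id_mul_two (r + 1)
    have h2 : (((∑ v ∈ Finset.range (r + 1), v) * 2 : ℕ) : ℝ) = (((r + 1) * (r + 1 - 1) : ℕ) : ℝ) := by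
      rw [h]
    rw [Nat.add_sub_cancel] at h2
    push_cast at h2
    linarith
  rw [Finset.sum_sub_distrib, ← Finset.sum_div, ← Finset.mul_sum, h1]
  simp only [Finset.sum_const, Finset.card_range, nsmul_eq_mul, mul_one]
  field_simp
  push_cast
  ring

theorem B3_abs (r v : ℕ) (hr : 1 ≤ r) (hv : v ∈ Finset.range (r + 1)) :
    |2 * (v : ℝ) / r - 1| ≤ 1 := by
  have hr0 : (0 : ℝ) < r := by exact_mod_cast hr
  have hv' : (v : ℝ) ≤ r := by exact_mod_cast Nat.lt_succ_iff.1 (Finset.mem_range.1 hv)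
  have hv0 : (0 : ℝ) ≤ v := by positivity
  rw [abs_le]
  constructor
  · have : 0 ≤ 2 * (v : ℝ) / r := by positivity
    linarith
  · have : 2 * (v : ℝ) / r ≤ 2 := by
      rw [div_le_iff₀ hr0]
      linarith
    linarith

theorem B3_card {m : ℕ} (r : Fin m → ℕ) :
    ((Fintype.piFinset fun h => Finset.range (r h + 1)).card : ℝ) = ∏ h, ((r h : ℝ) + 1) := by
  rw [Fintype.card_piFinset]
  simp

/-- ROW 4ae-B3 (Chebyshev). Second moment from `SB.count_second_moment` (MP_28dc30_nt/Count.lean) with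
`x h v = 2 v / r h - 1`, `|x| ≤ 1`, mean zero over `v = 0..r h`. -/
theorem second_moment {m : ℕ} (r : Fin m → ℕ) (hr : ∀ h, 1 ≤ r h) :
    ∑ I ∈ Fintype.piFinset fun h => Finset.range (r h + 1),
      ((∑ h, (I h : ℝ) / r h) - (m : ℝ) / 2) ^ 2 ≤ (m : ℝ) / 4 * ∏ h, ((r h : ℝ) + 1) := by
  have h := SB.count_second_moment (fun h => Finset.range (r h + 1))
    (fun h v => 2 * (v : ℝ) / r h - 1) (fun h => B3_sum (r h) (hr h))
    (fun h v hv => B3_abs (r h) v (hr h) hv)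
  rw [B3_card, Fintype.card_fin] at h
  have h2 : ∑ I ∈ Fintype.piFinset fun h => Finset.range (r h + 1),
      (∑ h, (2 * (I h : ℝ) / r h - 1)) ^ 2 =
      4 * ∑ I ∈ Fintype.piFinset fun h => Finset.range (r h + 1),
      ((∑ h, (I h : ℝ) / r h) - (m : ℝ) / 2) ^ 2 := by
    rw [Finset.mul_sum]
    refine Finset.sum_congr rfl fun I _ => ?_
    have h3 : ∑ h, (2 * (I h : ℝ) / r h - 1) = 2 * ((∑ h, (I h : ℝ) / r h) - (m : ℝ) / 2) := by
      rw [Finset.sum_sub_distrib, mul_sub, Finset.mul_sum]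
      congr 1
      · exact Finset.sum_congr rfl fun h _ => by ring
      · simp
        ring
    rw [h3]
    ring
  rw [h2] at h
  linarith

theorem B3_main {m : ℕ} (r : Fin m → ℕ) (hr : ∀ h, 1 ≤ r h) (η : ℝ)
    (p : (Fin m → ℕ) → Prop) [DecidablePred p]
    (hp : ∀ I, p I → (η * m) ^ 2 ≤ ((∑ h, (I h : ℝ) / r h) - (m : ℝ) / 2) ^ 2) :
    4 * η ^ 2 * m * (((Fintype.piFinset fun h => Finset.range (r h + 1)).filter p).card : ℝ) ≤
      ∏ h, ((r h : ℝ) + 1) := by
  have hP : 0 ≤ ∏ h, ((r h : ℝ) + 1) := Finset.prod_nonneg fun h _ => by positivity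
  rcases Nat.eq_zero_or_pos m with hm | hm
  · subst hm
    simp
  have hm' : (0 : ℝ) < m := by exact_mod_cast hm
  have h1 : (η * m) ^ 2 *
      (((Fintype.piFinset fun h => Finset.range (r h + 1)).filter p).card : ℝ) ≤
      ∑ I ∈ Fintype.piFinset fun h => Finset.range (r h + 1),
      ((∑ h, (I h : ℝ) / r h) - (m : ℝ) / 2) ^ 2 := by
    calc (η * m) ^ 2 *
      (((Fintype.piFinset fun h => Finset.range (r h + 1)).filter p).card : ℝ)
        = ∑ I ∈ (Fintype.piFinset fun h => Finset.range (r h + 1)).filter p, (η * m) ^ 2 := by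
          rw [Finset.sum_const, nsmul_eq_mul, mul_comm]
      _ ≤ ∑ I ∈ (Fintype.piFinset fun h => Finset.range (r h + 1)).filter p,
          ((∑ h, (I h : ℝ) / r h) - (m : ℝ) / 2) ^ 2 :=
          Finset.sum_le_sum fun I hI => hp I (Finset.mem_filter.1 hI).2
      _ ≤ _ := Finset.sum_le_sum_of_subset_of_nonneg (Finset.filter_subset _ _)
          fun _ _ _ => sq_nonneg _
  have h2 := h1.trans (second_moment r hr)
  have h3 : (m : ℝ) * (4 * η ^ 2 * m *
      (((Fintype.piFinset fun h => Finset.range (r h + 1)).filter p).card : ℝ)) ≤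
      m * ∏ h, ((r h : ℝ) + 1) := by
    nlinarith [h2]
  exact le_of_mul_le_mul_left h3 hm'

theorem count_high {m : ℕ} (r : Fin m → ℕ) (hr : ∀ h, 1 ≤ r h) (η : ℝ) (hη : 0 < η) :
    4 * η ^ 2 * m * (((Fintype.piFinset fun h => Finset.range (r h + 1)).filter
      (fun I => (1 / 2 + η) * m < ∑ h, (I h : ℝ) / r h)).card : ℝ) ≤ ∏ h, ((r h : ℝ) + 1) := by
  refine B3_main r hr η _ fun I hI => ?_
  have h0 : 0 ≤ η * m := by positivity
  exact pow_le_pow_left₀ h0 (by linarith) 2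

theorem count_low {m : ℕ} (r : Fin m → ℕ) (hr : ∀ h, 1 ≤ r h) (η : ℝ) (hη : 0 < η) :
    4 * η ^ 2 * m * (((Fintype.piFinset fun h => Finset.range (r h + 1)).filter
      (fun I => ∑ h, (I h : ℝ) / r h < (1 / 2 - η) * m)).card : ℝ) ≤ ∏ h, ((r h : ℝ) + 1) := by
  refine B3_main r hr η _ fun I hI => ?_
  have h0 : 0 ≤ η * m := by positivity
  rw [← neg_sq ((∑ h, (I h : ℝ) / r h) - (m : ℝ) / 2)]
  exact pow_le_pow_left₀ h0 (by linarith) 2

end Rid
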