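import Mathlib

set_option autoImplicit false

namespace Rid

/-- ROW 4ae-B4a (Siegel's lemma, Mathlib: Int.Matrix.exists_ne_zero_int_vec_norm_le'). When the number of rows is at most
`n - #rows` the exponent is at most `1`. If there are no rows take any nonzero vector of norm `1`. -/
theorem siegel {α β : Type*} [Fintype α] [Fintype β] [DecidableEq α] [DecidableEq β] (M : Matrix α β ℤ)
    (hβ : 0 < Fintype.card β) (hcard : 2 * Fintype.card α ≤ Fintype.card β) (B : ℝ) (hB : 1 ≤ B)
    (hM : ∀ i j, |(M i j : ℝ)| ≤ B) :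
    ∃ t : β → ℤ, t ≠ 0 ∧ M.mulVec t = 0 ∧ ∀ j, |(t j : ℝ)| ≤ (Fintype.card β : ℝ) * B := by
  let _ : SeminormedAddCommGroup (Matrix α β ℤ) := Matrix.seminormedAddCommGroup
  have hn1 : (1 : ℝ) ≤ (Fintype.card β : ℝ) := by exact_mod_cast hβ
  have hnB : 1 ≤ (Fintype.card β : ℝ) * B := by nlinarith
  by_cases hA : M = 0
  · obtain ⟨j0⟩ := Fintype.card_pos_iff.1 hβ
    refine ⟨Pi.single j0 1, ?_, ?_, ?_⟩
    · intro h
      have := congrFun h j0
      simp at this
    · rw [hA, Matrix.zero_mulVec]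
    · intro j
      by_cases hj : j = j0
      · subst hj
        simpa using hnB
      · rw [Pi.single_eq_of_ne hj]
        simp only [Int.cast_zero, abs_zero]
        linarith
  · have hα : 0 < Fintype.card α := by
      rw [Fintype.card_pos_iff]
      by_contra hne
      rw [not_nonempty_iff] at hne
      exact hA (Subsingleton.elim _ _)
    have hlt : Fintype.card α < Fintype.card β := by omega
    obtain ⟨t, ht0, htM, htn⟩ := Int.Matrix.exists_ne_zero_int_vec_norm_le' M hlt hα hA
    refine ⟨t, ht0, htM, fun j => ?_⟩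
    have hMB : ‖M‖ ≤ B := by
      rw [Matrix.norm_le_iff (by linarith)]
      intro i j
      rw [Int.norm_eq_abs]
      exact hM i j
    have hM1 : 1 ≤ ‖M‖ := Int.Matrix.one_le_norm_A_of_ne_zero _ hA
    have htj : |(t j : ℝ)| ≤ ‖t‖ := by
      rw [← Int.norm_eq_abs]
      exact norm_le_pi_norm t j
    have hα' : (0 : ℝ) < Fintype.card α := by exact_mod_cast hα
    have hc : (2 : ℝ) * Fintype.card α ≤ Fintype.card β := by exact_mod_cast hcard
    have hexp : (Fintype.card α : ℝ) / ((Fintype.card β : ℝ) - Fintype.card α) ≤ 1 := by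
      rw [div_le_one (by linarith)]
      linarith
    have hbase : 1 ≤ (Fintype.card β : ℝ) * ‖M‖ := by nlinarith
    calc |(t j : ℝ)| ≤ ‖t‖ := htj
      _ ≤ _ := htn
      _ ≤ ((Fintype.card β : ℝ) * ‖M‖) ^ (1 : ℝ) := Real.rpow_le_rpow_of_exponent_le hbase hexp
      _ = (Fintype.card β : ℝ) * ‖M‖ := Real.rpow_one _
      _ ≤ (Fintype.card β : ℝ) * B := by
        exact mul_le_mul_of_nonneg_left hMB (by linarith)

end Rid
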