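import Pool.Agent.Lib.MP_4ae430_nt.R.B3

set_option autoImplicit false

namespace Rid

theorem B4b_count {m : ℕ} (hm : 0 < m) (S : Finset ℕ) (r : Fin m → ℕ) (hr : ∀ h, 1 ≤ r h) (η : ℝ) (hη : 0 < η)
    (hηm : (S.card : ℝ) + 1 ≤ η ^ 2 * m) :
    0 < ((Fintype.piFinset fun h => Finset.range (r h + 1)).filter
        (fun I => ∑ h, (I h : ℝ) / r h ≤ (1 / 2 + η) * m)).card ∧
      2 * (S.card * ((Fintype.piFinset fun h => Finset.range (r h + 1)).filter
        (fun I => ∑ h, (I h : ℝ) / r h < (1 / 2 - η) * m)).card) ≤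
        ((Fintype.piFinset fun h => Finset.range (r h + 1)).filter
        (fun I => ∑ h, (I h : ℝ) / r h ≤ (1 / 2 + η) * m)).card ∧
      ((Fintype.piFinset fun h => Finset.range (r h + 1)).filter
        (fun I => ∑ h, (I h : ℝ) / r h ≤ (1 / 2 + η) * m)).card ≤ 2 ^ (∑ h, r h) := by
  classical
  have hhigh := count_high r hr η hη
  have hlow := count_low r hr η hη
  set box := Fintype.piFinset fun h => Finset.range (r h + 1) with hbox
  set U := box.filter (fun I => ∑ h, (I h : ℝ) / r h ≤ (1 / 2 + η) * m) with hU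
  set Lw := box.filter (fun I => ∑ h, (I h : ℝ) / r h < (1 / 2 - η) * m) with hLw
  set Hi := box.filter (fun I => (1 / 2 + η) * m < ∑ h, (I h : ℝ) / r h) with hHi
  have hboxc : (box.card : ℝ) = ∏ h, ((r h : ℝ) + 1) := by
    rw [hbox, Fintype.card_piFinset]
    push_cast
    refine Finset.prod_congr rfl fun h _ => ?_
    rw [Finset.card_range]
    push_cast
    rfl
  have hsplit : U.card + Hi.card = box.card := by
    have h1 := Finset.card_filter_add_card_filter_not (s := box) (fun I => ∑ h, (I h : ℝ) / r h ≤ (1 / 2 + η) * m)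
    have h2 : box.filter (fun I => ¬ ∑ h, (I h : ℝ) / r h ≤ (1 / 2 + η) * m) = Hi := by
      rw [hHi]
      refine Finset.filter_congr fun I _ => ?_
      rw [not_le]
    rw [h2] at h1
    exact h1
  have hsplitR : (U.card : ℝ) + (Hi.card : ℝ) = box.card := by exact_mod_cast hsplit
  rw [← hboxc] at hhigh hlow
  have hs0 : (0 : ℝ) ≤ S.card := Nat.cast_nonneg _
  have hHi0 : (0 : ℝ) ≤ Hi.card := Nat.cast_nonneg _
  have hLw0 : (0 : ℝ) ≤ Lw.card := Nat.cast_nonneg _
  have h4 : 4 * ((S.card : ℝ) + 1) ≤ 4 * η ^ 2 * m := by linarith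
  have hH : 4 * ((S.card : ℝ) + 1) * Hi.card ≤ box.card := (mul_le_mul_of_nonneg_right h4 hHi0).trans hhigh
  have hL : 4 * ((S.card : ℝ) + 1) * Lw.card ≤ box.card := (mul_le_mul_of_nonneg_right h4 hLw0).trans hlow
  have hboxpos : (0 : ℝ) < box.card := by
    rw [hboxc]
    exact Finset.prod_pos fun h _ => by positivity
  have hUhalf : (box.card : ℝ) / 2 < U.card := by nlinarith
  refine ⟨?_, ?_, ?_⟩
  · have : (0 : ℝ) < U.card := by linarith
    exact_mod_cast this
  · have h5 : 2 * ((S.card : ℝ) * Lw.card) ≤ U.card := by nlinarith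
    exact_mod_cast h5
  · have h6 : U.card ≤ box.card := Finset.card_filter_le _ _
    refine h6.trans ?_
    rw [hbox, Fintype.card_piFinset, ← Finset.prod_pow_eq_pow_sum]
    refine Finset.prod_le_prod' fun h _ => ?_
    rw [Finset.card_range]
    exact Nat.lt_two_pow_self

end Rid
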