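import Pool.Agent.Lib.MP_4ae430_nt.R.A1
import Pool.Agent.Lib.MP_4ae430_nt.R.A4
import Pool.Agent.Lib.MP_4ae430_nt.R.B4
import Pool.Agent.Lib.MP_4ae430_nt.R.B4c

/-!
The auxiliary polynomial.
-/

set_option autoImplicit false

namespace Rid

open MvPolynomial

/-- the exponent with given values -/
noncomputable def B4b_ex {m : ℕ} (I : Fin m → ℕ) : Fin m →₀ ℕ := Finsupp.equivFunOnFinite.symm I

theorem B4b_ex_apply {m : ℕ} (I : Fin m → ℕ) (h : Fin m) : B4b_ex I h = I h := rfl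

theorem B4b_ex_injective {m : ℕ} : Function.Injective (B4b_ex (m := m)) := fun I J h => by
  funext i
  have := DFunLike.congr_fun h i
  simpa [B4b_ex_apply] using this

theorem B4b_coeff {m : ℕ} (U : Finset (Fin m → ℕ)) (t : U → ℤ) (K : Fin m →₀ ℕ) :
    coeff K (∑ I : U, monomial (B4b_ex (I : Fin m → ℕ)) (t I)) =
      if h : (K : Fin m → ℕ) ∈ U then t ⟨K, h⟩ else 0 := by
  classical
  rw [coeff_sum]
  simp only [coeff_monomial]
  have hiff : ∀ I : Fin m → ℕ, B4b_ex I = K ↔ I = (K : Fin m → ℕ) := by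
    intro I
    constructor
    · intro h; funext i; rw [← h, B4b_ex_apply]
    · intro h; ext i; rw [B4b_ex_apply, h]
  split_ifs with h
  · rw [Finset.sum_eq_single (⟨K, h⟩ : U)]
    · rw [if_pos ((hiff _).2 rfl)]
    · intro I _ hI
      rw [if_neg]
      intro h'
      exact hI (Subtype.ext ((hiff _).1 h'))
    · intro h'
      exact absurd (Finset.mem_univ _) h'
  · refine Finset.sum_eq_zero fun I _ => ?_
    rw [if_neg]
    intro h'
    exact h (by rw [← (hiff _).1 h']; exact I.2)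

theorem B4b_sum {m : ℕ} {M : Type} [AddCommMonoid M] (U : Finset (Fin m → ℕ)) (t : U → ℤ) (φ : (Fin m →₀ ℕ) → ℤ → M)
    (hφ : ∀ K, φ K 0 = 0) :
    ∑ K ∈ (∑ I : U, monomial (B4b_ex (I : Fin m → ℕ)) (t I)).support,
      φ K (coeff K (∑ I : U, monomial (B4b_ex (I : Fin m → ℕ)) (t I))) = ∑ I : U, φ (B4b_ex (I : Fin m → ℕ)) (t I) := by
  classical
  set P := ∑ I : U, monomial (B4b_ex (I : Fin m → ℕ)) (t I) with hP
  have h1 : ∑ I : U, φ (B4b_ex (I : Fin m → ℕ)) (t I) =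
      ∑ K ∈ (Finset.univ : Finset U).image (fun I : U => B4b_ex (I : Fin m → ℕ)), φ K (coeff K P) := by
    rw [Finset.sum_image (fun I _ J _ h => Subtype.ext (B4b_ex_injective h))]
    refine Finset.sum_congr rfl fun I _ => ?_
    have h2 : coeff (B4b_ex (I : Fin m → ℕ)) P = t I := by
      rw [hP, B4b_coeff]
      have h3 : ((B4b_ex (I : Fin m → ℕ) : Fin m →₀ ℕ) : Fin m → ℕ) = I := by
        funext i; rfl
      rw [dif_pos (by rw [h3]; exact I.2)]
      congr 1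
    rw [h2]
  rw [h1]
  refine Finset.sum_subset ?_ ?_
  · intro K hK
    rw [mem_support_iff, hP, B4b_coeff] at hK
    split_ifs at hK with h
    · exact Finset.mem_image.2 ⟨⟨K, h⟩, Finset.mem_univ _, by ext i; rfl⟩
    · exact absurd rfl hK
  · intro K _ hK
    rw [notMem_support_iff.1 hK, hφ]

/-- the auxiliary polynomial -/
theorem aux_poly {m : ℕ} (hm : 0 < m) (S : Finset ℕ) (r : Fin m → ℕ) (hr : ∀ h, 1 ≤ r h) (η : ℝ) (hη : 0 < η)
    (hηm : (S.card : ℝ) + 1 ≤ η ^ 2 * m) (γ : ℕ → Fin m → ℤ) (Cc : Fin m → ℝ) (hCc : ∀ h, 1 ≤ Cc h)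
    (hγ : ∀ p ∈ S, ∀ h, |(γ p h : ℝ)| ≤ Cc h) :
    ∃ P : MvPolynomial (Fin m) ℤ, P ≠ 0 ∧
      (∀ I, coeff I P ≠ 0 → (∀ h, I h ≤ r h) ∧ wt r I ≤ (1 / 2 + η) * m) ∧
      (∀ p ∈ S, ∀ J, wt r J < (1 / 2 - η) * m → coeff J (tay (γ p) P) = 0) ∧
      (l1 P : ℝ) ≤ 8 ^ (∑ h, r h) * ∏ h, Cc h ^ r h := by
  classical
  obtain ⟨hU0, hcard, hU2⟩ := B4b_count hm S r hr η hη hηm
  set U := (Fintype.piFinset fun h => Finset.range (r h + 1)).filter
        (fun I => ∑ h, (I h : ℝ) / r h ≤ (1 / 2 + η) * m) with hU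
  set Lw := (Fintype.piFinset fun h => Finset.range (r h + 1)).filter
        (fun I => ∑ h, (I h : ℝ) / r h < (1 / 2 - η) * m) with hLw
  have hUr : ∀ I ∈ U, ∀ h, I h ≤ r h := by
    intro I hI h
    have := (Finset.mem_filter.1 hI).1
    have := Finset.mem_range.1 (Fintype.mem_piFinset.1 this h)
    omega
  set B : ℝ := 2 ^ (∑ h, r h) * ∏ h, Cc h ^ r h with hB
  have hprod1 : (1 : ℝ) ≤ ∏ h, Cc h ^ r h := by
    have : ∏ _h : Fin m, (1 : ℝ) ≤ ∏ h, Cc h ^ r h :=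
      Finset.prod_le_prod (fun _ _ => zero_le_one) (fun h _ => one_le_pow₀ (hCc h))
    simpa using this
  have hB1 : 1 ≤ B := by
    rw [hB]
    exact one_le_mul_of_one_le_of_one_le (one_le_pow₀ (by norm_num)) hprod1
  let M : Matrix (S × Lw) U ℤ := fun a I =>
    (bin (B4b_ex (I : Fin m → ℕ)) (B4b_ex (a.2 : Fin m → ℕ)) : ℤ) *
      ∏ h, γ (a.1 : ℕ) h ^ ((I : Fin m → ℕ) h - (a.2 : Fin m → ℕ) h)
  have hM : ∀ a I, |(M a I : ℝ)| ≤ B := by
    intro a I
    have h1 : ((M a I : ℤ) : ℝ) = (bin (B4b_ex (I : Fin m → ℕ)) (B4b_ex (a.2 : Fin m → ℕ)) : ℝ) *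
      ∏ h, (γ (a.1 : ℕ) h : ℝ) ^ ((I : Fin m → ℕ) h - (a.2 : Fin m → ℕ) h) := by
      simp only [M]
      push_cast
      rfl
    rw [h1, abs_mul, Finset.abs_prod, Nat.abs_cast]
    refine mul_le_mul ?_ ?_ (Finset.prod_nonneg fun _ _ => abs_nonneg _) (by positivity)
    · have := bin_le r (B4b_ex (I : Fin m → ℕ)) (B4b_ex (a.2 : Fin m → ℕ)) (fun h => hUr I I.2 h)
      exact_mod_cast this
    · refine Finset.prod_le_prod (fun _ _ => abs_nonneg _) (fun h _ => ?_)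
      rw [abs_pow]
      calc |(γ (a.1 : ℕ) h : ℝ)| ^ ((I : Fin m → ℕ) h - (a.2 : Fin m → ℕ) h)
          ≤ Cc h ^ ((I : Fin m → ℕ) h - (a.2 : Fin m → ℕ) h) :=
            pow_le_pow_left₀ (abs_nonneg _) (hγ _ a.1.2 h) _
        _ ≤ Cc h ^ r h := pow_le_pow_right₀ (hCc h) (le_trans (Nat.sub_le _ _) (hUr I I.2 h))
  have hcardU : Fintype.card U = U.card := Fintype.card_coe U
  have hcardA : Fintype.card (S × Lw) = S.card * Lw.card := by
    rw [Fintype.card_prod, Fintype.card_coe, Fintype.card_coe]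
  obtain ⟨t, ht0, htM, htB⟩ := siegel M (by rw [hcardU]; exact hU0) (by rw [hcardU, hcardA]; exact hcard) B hB1 hM
  refine ⟨∑ I : U, monomial (B4b_ex (I : Fin m → ℕ)) (t I), ?_, ?_, ?_, ?_⟩
  · intro h0
    apply ht0
    funext I
    have h1 := B4b_coeff U t (B4b_ex (I : Fin m → ℕ))
    have h3 : ((B4b_ex (I : Fin m → ℕ) : Fin m →₀ ℕ) : Fin m → ℕ) = I := by
      funext i; rfl
    rw [h0, coeff_zero, dif_pos (by rw [h3]; exact I.2)] at h1
    have h4 : t I = t ⟨((B4b_ex (I : Fin m → ℕ) : Fin m →₀ ℕ) : Fin m → ℕ), by rw [h3]; exact I.2⟩ := by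
      congr 1
    rw [h4, ← h1]
    rfl
  · intro K hK
    rw [B4b_coeff] at hK
    split_ifs at hK with h
    · refine ⟨fun i => hUr _ h i, ?_⟩
      exact (Finset.mem_filter.1 h).2
    · exact absurd rfl hK
  · intro p hp J hJ
    rw [coeff_tay_sum, B4b_sum U t (fun K c => (bin K J : ℤ) * (∏ h, γ p h ^ (K h - J h)) * c)
      (fun K => mul_zero _)]
    by_cases hJU : (J : Fin m → ℕ) ∈ Lw
    · have h1 := congrFun htM (⟨p, hp⟩, ⟨J, hJU⟩)
      simp only [Matrix.mulVec, dotProduct, Pi.zero_apply] at h1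
      rw [← h1]
      refine Finset.sum_congr rfl fun I _ => ?_
      have h2 : B4b_ex (J : Fin m → ℕ) = J := by ext i; rfl
      simp only [M]
      rw [h2]
      rfl
    · refine Finset.sum_eq_zero fun I _ => ?_
      have h2 : ¬ J ≤ B4b_ex (I : Fin m → ℕ) := by
        intro hle
        apply hJU
        refine Finset.mem_filter.2 ⟨?_, hJ⟩
        rw [Fintype.mem_piFinset]
        intro h
        have := hUr I I.2 h
        have h3 : J h ≤ (I : Fin m → ℕ) h := hle h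
        exact Finset.mem_range.2 (by omega)
      rw [bin_eq_zero h2]
      simp
  · have h1 : (l1 (∑ I : U, monomial (B4b_ex (I : Fin m → ℕ)) (t I)) : ℝ) = ∑ I : U, |(t I : ℝ)| := by
      unfold l1
      rw [B4b_sum U t (fun _ c => c.natAbs) (fun _ => rfl)]
      push_cast
      refine Finset.sum_congr rfl fun I _ => ?_
      rw [Nat.cast_natAbs, Int.cast_abs]
    rw [h1]
    have hU2' : ((U.card : ℕ) : ℝ) ≤ 2 ^ (∑ h, r h) := by exact_mod_cast hU2
    calc ∑ I : U, |(t I : ℝ)| ≤ ∑ _I : U, ((Fintype.card U : ℝ) * B) := Finset.sum_le_sum fun I _ => htB I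
      _ = (U.card : ℝ) * ((U.card : ℝ) * B) := by
          rw [Finset.sum_const, Finset.card_univ, hcardU, nsmul_eq_mul]
      _ ≤ 2 ^ (∑ h, r h) * (2 ^ (∑ h, r h) * B) := by
          refine mul_le_mul hU2' (mul_le_mul_of_nonneg_right hU2' (by linarith)) (by positivity) (by positivity)
      _ = 8 ^ (∑ h, r h) * ∏ h, Cc h ^ r h := by
          rw [hB]
          have : (8 : ℝ) = 2 * 2 * 2 := by norm_num
          rw [this, mul_pow, mul_pow]
          ring

end Rid
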