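import Pool.Agent.Lib.MP_4ae430_nt.R.A1
import Pool.Agent.Lib.MP_4ae430_nt.R.A4

set_option autoImplicit false

namespace Rid

open MvPolynomial

private theorem B5_prod {m : ℕ} (r : Fin m → ℕ) (hr : ∀ h, 1 ≤ r h) (c : ℝ) (L : Fin m →₀ ℕ)
    (hw : wt r L ≤ c) (N : Fin m → ℕ) (hN : ∀ h, 1 ≤ N h) (d : ℝ)
    (hd0 : 0 ≤ d) (hd : ∀ h, (r h : ℝ) * Real.log (N h) ≤ d) (J : Fin m →₀ ℕ) :
    ∏ h, (N h : ℝ) ^ (L h - J h) ≤ Real.exp (c * d) := by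
  have h1 : ∏ h, (N h : ℝ) ^ (L h - J h) ≤ ∏ h, Real.exp ((L h : ℝ) / (r h : ℝ) * d) := by
    refine Finset.prod_le_prod (fun h _ => by positivity) fun h _ => ?_
    have hN1 : (1 : ℝ) ≤ N h := by exact_mod_cast hN h
    have hN0 : (0 : ℝ) < N h := lt_of_lt_of_le one_pos hN1
    have hr0 : (0 : ℝ) < r h := by exact_mod_cast hr h
    calc (N h : ℝ) ^ (L h - J h) ≤ (N h : ℝ) ^ (L h) :=
          pow_le_pow_right₀ hN1 (Nat.sub_le _ _)
      _ = Real.exp ((L h : ℝ) * Real.log (N h)) := by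
          rw [Real.exp_nat_mul, Real.exp_log hN0]
      _ ≤ Real.exp ((L h : ℝ) / (r h : ℝ) * d) := by
          apply Real.exp_le_exp.mpr
          calc (L h : ℝ) * Real.log (N h) = (L h : ℝ) / (r h : ℝ) * ((r h : ℝ) * Real.log (N h)) := by
                field_simp
            _ ≤ (L h : ℝ) / (r h : ℝ) * d :=
                mul_le_mul_of_nonneg_left (hd h) (by positivity)
  refine h1.trans ?_
  rw [← Real.exp_sum, ← Finset.sum_mul]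
  exact Real.exp_le_exp.mpr (mul_le_mul_of_nonneg_right hw hd0)

/-- ROW 4ae-B5 (upper bound; coeff_tay_sum). `bin L J ≤ 2 ^ ∑ r`, and
`∏ N h ^ (L h - J h) ≤ ∏ N h ^ L h = exp (∑ (L h / r h) * (r h * log N h)) ≤ exp (d * wt r L)`. -/
theorem D_upper {m : ℕ} (r : Fin m → ℕ) (hr : ∀ h, 1 ≤ r h) (P : MvPolynomial (Fin m) ℤ) (c : ℝ)
    (hP : ∀ I, coeff I P ≠ 0 → (∀ h, I h ≤ r h) ∧ wt r I ≤ c) (N : Fin m → ℕ) (hN : ∀ h, 1 ≤ N h) (d : ℝ)
    (hd0 : 0 ≤ d) (hd : ∀ h, (r h : ℝ) * Real.log (N h) ≤ d) (J : Fin m →₀ ℕ) :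
    |((coeff J (tay (fun h => (N h : ℤ)) P) : ℤ) : ℝ)| ≤ 2 ^ (∑ h, r h) * (l1 P : ℝ) * Real.exp (c * d) := by
  rw [coeff_tay_sum]
  push_cast
  refine (Finset.abs_sum_le_sum_abs _ _).trans ?_
  have hl1 : (l1 P : ℝ) = ∑ L ∈ P.support, |((coeff L P : ℤ) : ℝ)| := by
    unfold l1
    push_cast
    refine Finset.sum_congr rfl fun L _ => ?_
    rw [Nat.cast_natAbs, Int.cast_abs]
  rw [hl1, Finset.mul_sum, Finset.sum_mul]
  refine Finset.sum_le_sum fun L hL => ?_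
  obtain ⟨h1, h2⟩ := hP L (MvPolynomial.mem_support_iff.mp hL)
  have hb : (bin L J : ℝ) ≤ 2 ^ (∑ h, r h) := by exact_mod_cast bin_le r L J h1
  have hp := B5_prod r hr c L h2 N hN d hd0 hd J
  have hp0 : 0 ≤ ∏ h, (N h : ℝ) ^ (L h - J h) := Finset.prod_nonneg fun h _ => by positivity
  rw [abs_mul, abs_mul, abs_of_nonneg (Nat.cast_nonneg _), abs_of_nonneg hp0]
  calc (bin L J : ℝ) * (∏ h, (N h : ℝ) ^ (L h - J h)) * |((coeff L P : ℤ) : ℝ)|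
      ≤ 2 ^ (∑ h, r h) * Real.exp (c * d) * |((coeff L P : ℤ) : ℝ)| := by
        refine mul_le_mul_of_nonneg_right ?_ (abs_nonneg _)
        exact mul_le_mul hb hp hp0 (by positivity)
    _ = 2 ^ (∑ h, r h) * |((coeff L P : ℤ) : ℝ)| * Real.exp (c * d) := by ring

end Rid
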