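import Pool.Agent.Lib.MP_4ae430_nt.R.A1

set_option autoImplicit false

namespace Rid

open MvPolynomial

theorem B6_aux {m : ℕ} (p : ℕ) (hp : 2 ≤ p) (r : Fin m → ℕ) (hr : ∀ h, 1 ≤ r h) (a : Fin m → ℕ)
    (t x s : ℝ) (hx : 0 ≤ x) (hlow : ∀ h, x ≤ (r h : ℝ) * ((a h : ℝ) * Real.log p))
    (J L : Fin m →₀ ℕ) (hJ : wt r J ≤ s) (hJL : J ≤ L) (hL : t ≤ wt r L) :
    ⌈x * (t - s) / Real.log p⌉₊ ≤ ∑ h, a h * (L h - J h) := by
  have hlog : 0 < Real.log p := Real.log_pos (by exact_mod_cast hp)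
  apply Nat.ceil_le.mpr
  rw [div_le_iff₀ hlog]
  have h1 : x * (t - s) ≤ x * (wt r L - wt r J) := by
    apply mul_le_mul_of_nonneg_left _ hx
    linarith
  refine h1.trans ?_
  unfold wt
  rw [← Finset.sum_sub_distrib, Finset.mul_sum]
  push_cast
  rw [Finset.sum_mul]
  apply Finset.sum_le_sum
  intro h _
  have hle : J h ≤ L h := hJL h
  have hrh : (0 : ℝ) < (r h : ℝ) := by exact_mod_cast hr h
  rw [Nat.cast_sub hle, ← sub_div]
  have hd : (0 : ℝ) ≤ ((L h : ℝ) - (J h : ℝ)) / (r h : ℝ) := by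
    apply div_nonneg _ hrh.le
    rw [sub_nonneg]
    exact_mod_cast hle
  calc x * (((L h : ℝ) - (J h : ℝ)) / (r h : ℝ))
      ≤ ((r h : ℝ) * ((a h : ℝ) * Real.log p)) * (((L h : ℝ) - (J h : ℝ)) / (r h : ℝ)) :=
        mul_le_mul_of_nonneg_right (hlow h) hd
    _ = (a h : ℝ) * ((L h : ℝ) - (J h : ℝ)) * Real.log p := by
        field_simp

/-- ROW 4ae-B6 (p-adic lower bound). `tay N P = tay (N + c) (tay (-c) P)` (tay_tay); by coeff_tay_sum the coefficient at `J` is the sum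
of `bin L J * ∏ (N h + c h)^(L h - J h) * coeff L (tay (-c) P)`; nonzero terms have `J ≤ L`, `t ≤ wt r L`, and
`p ^ (∑ a h * (L h - J h))` divides them, `∑ a h (L h - J h) log p ≥ x * ∑ (L h - J h)/r h ≥ x (t - s)`;
take `e = ⌈x (t - s) / log p⌉₊`. -/
theorem D_padic {m : ℕ} (p : ℕ) (hp : 2 ≤ p) (r : Fin m → ℕ) (hr : ∀ h, 1 ≤ r h) (P : MvPolynomial (Fin m) ℤ)
    (N c : Fin m → ℤ) (a : Fin m → ℕ) (hdiv : ∀ h, (p : ℤ) ^ (a h) ∣ N h + c h) (t : ℝ)
    (hvan : ∀ L, wt r L < t → coeff L (tay (fun h => - c h) P) = 0) (x : ℝ) (hx : 0 ≤ x)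
    (hlow : ∀ h, x ≤ (r h : ℝ) * ((a h : ℝ) * Real.log p)) (J : Fin m →₀ ℕ) (s : ℝ) (hJ : wt r J ≤ s) :
    ∃ e : ℕ, (p : ℤ) ^ e ∣ coeff J (tay N P) ∧ x * (t - s) ≤ (e : ℝ) * Real.log p := by
  have hlog : 0 < Real.log p := Real.log_pos (by exact_mod_cast hp)
  refine ⟨⌈x * (t - s) / Real.log p⌉₊, ?_, ?_⟩
  · have hN : N = (fun h => N h + c h) + (fun h => - c h) := by
      funext h
      simp
    rw [hN, ← tay_tay, coeff_tay_sum]
    apply Finset.dvd_sum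
    intro L _
    by_cases hJL : J ≤ L
    · by_cases hL : wt r L < t
      · rw [hvan L hL, mul_zero]
        exact dvd_zero _
      · have h1 := B6_aux p hp r hr a t x s hx hlow J L hJ hJL (not_lt.mp hL)
        apply Dvd.dvd.mul_right
        apply Dvd.dvd.mul_left
        refine (pow_dvd_pow _ h1).trans ?_
        rw [← Finset.prod_pow_eq_pow_sum]
        apply Finset.prod_dvd_prod_of_dvd
        intro h _
        rw [pow_mul]
        exact pow_dvd_pow_of_dvd (hdiv h) _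
    · rw [bin_eq_zero hJL]
      simp
  · exact (div_le_iff₀ hlog).mp (Nat.le_ceil _)

end Rid
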