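import Mathlib

set_option autoImplicit false

namespace Rid

theorem B7_dvd (S : Finset ℕ) (hS : ∀ p ∈ S, p.Prime) (D : ℤ) (e : ℕ → ℕ)
    (h : ∀ p ∈ S, (p : ℤ) ^ (e p) ∣ D) : (∏ p ∈ S, (p : ℤ) ^ (e p)) ∣ D := by
  refine Finset.prod_dvd_of_coprime ?_ h
  intro p hp q hq hpq
  have h1 : Nat.Coprime p q := (Nat.coprime_primes (hS p hp) (hS q hq)).2 hpq
  have h2 : IsCoprime (p : ℤ) (q : ℤ) := Nat.isCoprime_iff_coprime.2 h1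
  exact IsCoprime.pow h2

/-- ROW 4ae-B7 -/
theorem prod_le (S : Finset ℕ) (hS : ∀ p ∈ S, p.Prime) (D : ℤ) (hD : D ≠ 0) (e : ℕ → ℕ)
    (h : ∀ p ∈ S, (p : ℤ) ^ (e p) ∣ D) : ∑ p ∈ S, (e p : ℝ) * Real.log p ≤ Real.log |(D : ℝ)| := by
  have h1 := B7_dvd S hS D e h
  have h2 : (∏ p ∈ S, (p : ℤ) ^ (e p)) ≤ |D| :=
    Int.le_of_dvd (abs_pos.2 hD) ((dvd_abs _ _).2 h1)
  have hpos : ∀ p ∈ S, (0 : ℝ) < (p : ℝ) ^ (e p) := fun p hp =>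
    pow_pos (by exact_mod_cast (hS p hp).pos) _
  have h3 : ∑ p ∈ S, (e p : ℝ) * Real.log p = Real.log (∏ p ∈ S, (p : ℝ) ^ (e p)) := by
    rw [Real.log_prod fun p hp => (hpos p hp).ne']
    exact Finset.sum_congr rfl fun p _ => (Real.log_pow _ _).symm
  rw [h3]
  refine Real.log_le_log (Finset.prod_pos hpos) ?_
  have h4 : ((∏ p ∈ S, (p : ℤ) ^ (e p) : ℤ) : ℝ) ≤ ((|D| : ℤ) : ℝ) := by exact_mod_cast h2
  rw [Int.cast_abs] at h4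
  simpa using h4

end Rid
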