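import Pool.Agent.Lib.MP_4ae430_nt.R.B4b
import Pool.Agent.Lib.MP_4ae430_nt.R.B5
import Pool.Agent.Lib.MP_4ae430_nt.R.B6
import Pool.Agent.Lib.MP_4ae430_nt.R.B7
import Pool.Agent.Lib.MP_d0d59f_nt.Sub.RothLemma

/-!
# The contradiction from a sequence of very good approximations
-/

set_option autoImplicit false

namespace Rid

open MvPolynomial
open Pool.Agent.Lib.MP_d0d59f_nt

theorem core_ht (N : ℕ) (hN : 1 ≤ N) : Auto.ht ((N : ℕ) : ℚ) = N := by
  unfold Auto.ht
  rw [Rat.num_natCast, Rat.den_natCast, Int.natAbs_natCast, max_eq_left hN]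

theorem core_final (m T ε η δ L : ℝ) (hm : 0 < m) (hT : 0 < T) (hε : 0 < ε) (hε1 : ε ≤ 1) (hη : η = ε / 100)
    (hδ : δ ≤ ε / 1000) (hL : 1 + ε / 2 ≤ L)
    (h : L * (1 - η) * T * ((1 / 2 - η) * m - m * η) ≤ m * T * (1 / 2 + η + 5 * δ)) : False := by
  have h1 : 0 < m * T := mul_pos hm hT
  have h2 : L * (1 - η) * (1 / 2 - 2 * η) ≤ 1 / 2 + η + 5 * δ := by
    have h3 : L * (1 - η) * T * ((1 / 2 - η) * m - m * η) = (m * T) * (L * (1 - η) * (1 / 2 - 2 * η)) := by ring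
    rw [h3] at h
    exact le_of_mul_le_mul_left h h1
  have h4 : 1 / 2 - 2 * η - η / 2 ≤ (1 - η) * (1 / 2 - 2 * η) := by
    have : 0 ≤ η * η := mul_self_nonneg η
    nlinarith
  have h5 : 0 < 1 / 2 - 2 * η - η / 2 := by rw [hη]; linarith
  have h6 : (1 + ε / 2) * (1 / 2 - 2 * η - η / 2) ≤ L * ((1 - η) * (1 / 2 - 2 * η)) :=
    mul_le_mul hL h4 h5.le (by linarith)
  have h7 : (1 + ε / 2) * (1 / 2 - 2 * η - η / 2) = 1 / 2 + ε / 4 - 5 / 200 * ε - 5 / 400 * ε ^ 2 := by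
    rw [hη]; ring
  have h8 : ε ^ 2 ≤ ε := by nlinarith
  rw [hη] at h2
  rw [hη] at h6 h7
  have h9 : L * ((1 - ε / 100) * (1 / 2 - 2 * (ε / 100))) = L * (1 - ε / 100) * (1 / 2 - 2 * (ε / 100)) := by ring
  linarith

theorem core (S : Finset ℕ) (hS : ∀ p ∈ S, p.Prime) (ε : ℝ) (hε : 0 < ε) (hε1 : ε ≤ 1) :
    ∃ (m : ℕ) (δ G : ℝ) (N₀ : ℕ), 0 < δ ∧ 1 ≤ G ∧ ∀ (l : ℕ → ℝ), (∀ p ∈ S, 0 ≤ l p) →
      1 + ε / 2 ≤ ∑ p ∈ S, l p →
      ∀ (N : Fin m → ℕ) (c : Fin m → ℕ → ℤ) (a : Fin m → ℕ → ℕ), (∀ h, N₀ ≤ N h) →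
        (∀ i j, i < j → G * Real.log (N j) ≤ Real.log (N i)) →
        (∀ h, ∀ p ∈ S, |(c h p : ℝ)| ≤ (N h : ℝ) ^ δ) →
        (∀ h, ∀ p ∈ S, (p : ℤ) ^ (a h p) ∣ (N h : ℤ) + c h p) →
        (∀ h, ∀ p ∈ S, l p * Real.log (N h) ≤ (a h p : ℝ) * Real.log p) → False := by
  set η : ℝ := ε / 100 with hη
  have hη0 : 0 < η := by positivity
  have hη1 : η ≤ 1 / 100 := by rw [hη]; linarith
  obtain ⟨m, hm⟩ := exists_nat_ge (((S.card : ℝ) + 1) / η ^ 2 + 1)
  have hm1 : ((S.card : ℝ) + 1) ≤ η ^ 2 * m := by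
    have h1 : ((S.card : ℝ) + 1) / η ^ 2 ≤ m := by linarith
    rw [div_le_iff₀ (by positivity)] at h1
    linarith
  have hmpos : 0 < m := by
    rcases Nat.eq_zero_or_pos m with h | h
    · subst h
      have : 0 ≤ ((S.card : ℝ) + 1) / η ^ 2 := by positivity
      simp only [Nat.cast_zero] at hm
      linarith
    · exact h
  have hmR : (0 : ℝ) < m := by exact_mod_cast hmpos
  have hθ : 0 < (m : ℝ) * η := by positivity
  obtain ⟨σ, hσ, hroth⟩ := Sb.roth m (m * η) hθ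
  set δ : ℝ := min (σ / (2 * (4 * m + (m + 1) ^ 2))) (ε / 1000) with hδdef
  have hδ0 : 0 < δ := lt_min (by positivity) (by positivity)
  have hδ1 : δ * (4 * m + ((m : ℝ) + 1) ^ 2) ≤ σ / 2 := by
    have h1 : δ ≤ σ / (2 * (4 * m + (m + 1) ^ 2)) := min_le_left _ _
    have h2 : (0 : ℝ) < 4 * m + (m + 1) ^ 2 := by positivity
    calc δ * (4 * m + ((m : ℝ) + 1) ^ 2) ≤ σ / (2 * (4 * m + (m + 1) ^ 2)) * (4 * m + ((m : ℝ) + 1) ^ 2) :=
          mul_le_mul_of_nonneg_right h1 h2.le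
      _ = σ / 2 := by field_simp
  have hδ2 : δ ≤ ε / 1000 := min_le_right _ _
  set G : ℝ := max 1 (2 / σ) with hG
  refine ⟨m, δ, G, ⌈Real.exp (1 / δ)⌉₊ + 2, hδ0, le_max_left _ _, ?_⟩
  intro l hl hlsum N c a hN hgrow hc hdiv hlow
  have hN2 : ∀ h, 2 ≤ N h := fun h => le_trans (by omega) (hN h)
  have hN1 : ∀ h, 1 ≤ N h := fun h => le_trans (by omega) (hN2 h)
  have hlogN : ∀ h, 1 / δ ≤ Real.log (N h) := by
    intro h
    rw [Real.le_log_iff_exp_le (by exact_mod_cast hN1 h)]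
    refine (Nat.le_ceil _).trans ?_
    have h1 := hN h
    exact_mod_cast (by omega : ⌈Real.exp (1 / δ)⌉₊ ≤ N h)
  have hlog0 : ∀ h, 0 < Real.log (N h) := fun h => lt_of_lt_of_le (by positivity) (hlogN h)
  have hinv : ∀ h, 1 / Real.log (N h) ≤ δ := by
    intro h
    rw [div_le_iff₀ (hlog0 h)]
    have := hlogN h
    rw [div_le_iff₀ hδ0] at this
    linarith
  -- the size parameter
  set T : ℝ := (∑ h, Real.log (N h)) / η with hT
  have hTN : ∀ h, Real.log (N h) ≤ η * T := by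
    intro h
    have h1 : η * T = ∑ h, Real.log (N h) := by rw [hT]; field_simp
    rw [h1]
    exact Finset.single_le_sum (f := fun h => Real.log (N h)) (fun i _ => (hlog0 i).le) (Finset.mem_univ h)
  have hT0 : 0 < T := by
    have h1 := hTN ⟨0, hmpos⟩
    have h2 := hlog0 ⟨0, hmpos⟩
    by_contra h3
    push Not at h3
    have := mul_nonpos_of_nonneg_of_nonpos hη0.le h3
    linarith
  set r : Fin m → ℕ := fun h => ⌊T / Real.log (N h)⌋₊ with hr
  have hr_le : ∀ h, (r h : ℝ) ≤ T / Real.log (N h) := fun h => Nat.floor_le (div_nonneg hT0.le (hlog0 h).le)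
  have hr_mul : ∀ h, (r h : ℝ) * Real.log (N h) ≤ T := by
    intro h
    have := hr_le h
    rwa [le_div_iff₀ (hlog0 h)] at this
  have hr_low : ∀ h, (1 - η) * T ≤ (r h : ℝ) * Real.log (N h) := by
    intro h
    have h1 : T / Real.log (N h) < (r h : ℝ) + 1 := Nat.lt_floor_add_one _
    rw [div_lt_iff₀ (hlog0 h)] at h1
    have := hTN h
    nlinarith
  have hr_delta : ∀ h, (r h : ℝ) ≤ δ * T := by
    intro h
    refine (hr_le h).trans ?_
    have := mul_le_mul_of_nonneg_left (hinv h) hT0.le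
    calc T / Real.log (N h) = T * (1 / Real.log (N h)) := by ring
      _ ≤ T * δ := this
      _ = δ * T := by ring
  have hr1 : ∀ h, 1 ≤ r h := by
    intro h
    rw [Nat.one_le_iff_ne_zero]
    intro h0
    have h1 := hr_low h
    rw [h0] at h1
    simp only [Nat.cast_zero, zero_mul] at h1
    have : 0 < (1 - η) * T := mul_pos (by linarith) hT0
    linarith
  have hR : (∑ h, (r h : ℝ)) ≤ δ * m * T := by
    calc ∑ h, (r h : ℝ) ≤ ∑ _h : Fin m, δ * T := Finset.sum_le_sum fun h _ => hr_delta h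
      _ = δ * m * T := by rw [Finset.sum_const, Finset.card_univ, Fintype.card_fin, nsmul_eq_mul]; ring
  have hRlog : ∑ h, (r h : ℝ) * Real.log (N h) ≤ m * T := by
    calc ∑ h, (r h : ℝ) * Real.log (N h) ≤ ∑ _h : Fin m, T := Finset.sum_le_sum fun h _ => hr_mul h
      _ = m * T := by rw [Finset.sum_const, Finset.card_univ, Fintype.card_fin, nsmul_eq_mul]
  have hNd : ∀ h, (1 : ℝ) ≤ (N h : ℝ) ^ δ := fun h =>
    Real.one_le_rpow (by exact_mod_cast hN1 h) hδ0.le
  -- the auxiliary polynomial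
  obtain ⟨P, hP0, hPsupp, hPvan, hPl1⟩ := aux_poly hmpos S r hr1 η hη0 hm1 (fun p h => - c h p)
    (fun h => (N h : ℝ) ^ δ) hNd (fun p hp h => by
      simp only [Int.cast_neg, abs_neg]
      exact hc h p hp)
  have hl1pos : (1 : ℝ) ≤ (l1 P : ℝ) := by exact_mod_cast l1_pos hP0
  have hlogl1 : Real.log (l1 P) ≤ 4 * δ * m * T := by
    have h1 : Real.log (l1 P) ≤ Real.log (8 ^ (∑ h, r h) * ∏ h, ((N h : ℝ) ^ δ) ^ r h) :=
      Real.log_le_log (by linarith) hPl1
    have h2 : Real.log (8 ^ (∑ h, r h) * ∏ h, ((N h : ℝ) ^ δ) ^ r h) =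
        (∑ h, (r h : ℝ)) * Real.log 8 + ∑ h, (r h : ℝ) * (δ * Real.log (N h)) := by
      rw [Real.log_mul (by positivity) (Finset.prod_ne_zero_iff.2 fun h _ => pow_ne_zero _ (by
        have := hNd h; linarith)), Real.log_pow, Real.log_prod (fun h _ => pow_ne_zero _ (by
        have := hNd h; linarith))]
      congr 1
      · push_cast; ring
      · refine Finset.sum_congr rfl fun h _ => ?_
        rw [Real.log_pow, Real.log_rpow (by exact_mod_cast hN1 h)]
    have h3 : Real.log 8 ≤ 3 := by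
      have h4 : (8 : ℝ) = 2 ^ (3 : ℕ) := by norm_num
      rw [h4, Real.log_pow]
      have := Real.log_two_lt_d9
      push_cast
      linarith
    have h5 : (∑ h, (r h : ℝ)) * Real.log 8 ≤ (δ * m * T) * 3 :=
      mul_le_mul hR h3 (Real.log_nonneg (by norm_num)) (by positivity)
    have h6 : ∑ h, (r h : ℝ) * (δ * Real.log (N h)) = δ * ∑ h, (r h : ℝ) * Real.log (N h) := by
      rw [Finset.mul_sum]
      exact Finset.sum_congr rfl fun h _ => by ring
    have h7 : δ * ∑ h, (r h : ℝ) * Real.log (N h) ≤ δ * (m * T) := mul_le_mul_of_nonneg_left hRlog hδ0.le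
    rw [h2, h6] at h1
    linarith
  -- Roth's lemma
  have hidx := hroth r (fun h => (N h : ℚ)) P (4 * δ * m * T) hP0 (fun h => hr1 h)
    (fun h => by
      rw [degreeOf_le_iff]
      intro I hI
      exact (hPsupp I (mem_support_iff.1 hI)).1 h)
    (fun i j hij => by
      have h1 := hgrow i j hij
      have h2 : 2 / σ * Real.log (N j) ≤ Real.log (N i) :=
        (mul_le_mul_of_nonneg_right (le_max_right _ _) (hlog0 j).le).trans h1
      have h3 : (r i : ℝ) * Real.log (N i) ≤ T := hr_mul i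
      have h4 := hr_low j
      have h5 : (r i : ℝ) * (2 / σ * Real.log (N j)) ≤ T :=
        (mul_le_mul_of_nonneg_left h2 (Nat.cast_nonneg _)).trans h3
      have h6 : T ≤ 2 * ((1 - η) * T) := by nlinarith
      have h7 : (r i : ℝ) * (2 / σ * Real.log (N j)) ≤ 2 * ((r j : ℝ) * Real.log (N j)) := by linarith
      have h8 : (r i : ℝ) * Real.log (N j) ≤ (σ * r j) * Real.log (N j) := by
        have h9 : (r i : ℝ) * (2 / σ * Real.log (N j)) = 2 / σ * ((r i : ℝ) * Real.log (N j)) := by ring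
        rw [h9] at h7
        have h10 := mul_le_mul_of_nonneg_left h7 (by positivity : (0 : ℝ) ≤ σ / 2)
        have h11 : σ / 2 * (2 / σ * ((r i : ℝ) * Real.log (N j))) = (r i : ℝ) * Real.log (N j) := by
          field_simp
        have h12 : σ / 2 * (2 * ((r j : ℝ) * Real.log (N j))) = (σ * r j) * Real.log (N j) := by ring
        rw [h11, h12] at h10
        exact h10
      exact le_of_mul_le_mul_right h8 (hlog0 j))
    (fun e => by
      have h1 : |((coeff e P : ℤ) : ℝ)| ≤ (l1 P : ℝ) := by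
        have h2 := natAbs_coeff_le_l1 P e
        rw [← Int.cast_abs, Int.abs_eq_natAbs, Int.cast_natCast]
        exact_mod_cast h2
      refine h1.trans ?_
      rw [← Real.log_le_iff_le_exp (by linarith)]
      exact hlogl1)
    (fun i j => by
      rw [core_ht (N j) (hN1 j)]
      have h1 := hr_delta i
      have h2 := hr_low j
      have h3 : 4 * δ * m * T + ((m : ℝ) + 1) ^ 2 * r i ≤ (δ * (4 * m + ((m : ℝ) + 1) ^ 2)) * T := by
        have := mul_le_mul_of_nonneg_left h1 (by positivity : (0 : ℝ) ≤ ((m : ℝ) + 1) ^ 2)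
        nlinarith
      have h4 : (δ * (4 * m + ((m : ℝ) + 1) ^ 2)) * T ≤ σ / 2 * T := mul_le_mul_of_nonneg_right hδ1 hT0.le
      have h5 : σ / 2 * T ≤ σ * ((1 - η) * T) := by
        have : T / 2 ≤ (1 - η) * T := by nlinarith
        have := mul_le_mul_of_nonneg_left this hσ.le
        linarith
      have h6 : σ * ((1 - η) * T) ≤ σ * ((r j : ℝ) * Real.log (N j)) := mul_le_mul_of_nonneg_left h2 hσ.le
      calc 4 * δ * m * T + ((m : ℝ) + 1) ^ 2 * r i ≤ σ * ((r j : ℝ) * Real.log (N j)) := by linarith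
        _ = σ * r j * Real.log (N j) := by ring)
  unfold Sb.IdxGe at hidx
  push Not at hidx
  obtain ⟨J, hJ, hJw⟩ := hidx
  have hJ' : coeff J (tay (fun h => (N h : ℤ)) P) ≠ 0 := by
    intro h0
    apply mem_support_iff.1 hJ
    have h1 : (Sb.shift (fun h => (N h : ℚ)) (map (Int.castRingHom ℚ) P)) =
        map (Int.castRingHom ℚ) (tay (fun h => (N h : ℤ)) P) := by
      rw [map_tay]
      have : (fun h => (Int.castRingHom ℚ) ((N h : ℤ))) = fun h => (N h : ℚ) := by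
        funext h; simp
      rw [this]
      rfl
    rw [h1, coeff_map, h0, map_zero]
  have hwJ : wt r J ≤ m * η := hJw.le
  set D : ℤ := coeff J (tay (fun h => (N h : ℤ)) P) with hD
  -- the upper bound
  have hup := D_upper r hr1 P ((1 / 2 + η) * m) hPsupp N hN1 T hT0.le hr_mul J
  have hlogD : Real.log |(D : ℝ)| ≤ m * T * (1 / 2 + η + 5 * δ) := by
    have h1 : 0 < |(D : ℝ)| := abs_pos.2 (by exact_mod_cast hJ')
    have h2 := Real.log_le_log h1 hup
    rw [Real.log_mul (by positivity) (Real.exp_pos _).ne', Real.log_exp, Real.log_mul (by positivity)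
      (by linarith), Real.log_pow] at h2
    have h3 : ((∑ h, r h : ℕ) : ℝ) * Real.log 2 ≤ δ * m * T := by
      have h4 : Real.log 2 ≤ 1 := by have := Real.log_two_lt_d9; linarith
      push_cast
      calc (∑ h, (r h : ℝ)) * Real.log 2 ≤ (∑ h, (r h : ℝ)) * 1 :=
            mul_le_mul_of_nonneg_left h4 (Finset.sum_nonneg fun _ _ => Nat.cast_nonneg _)
        _ ≤ δ * m * T := by rw [mul_one]; exact hR
    calc Real.log |(D : ℝ)| ≤ δ * m * T + 4 * δ * m * T + (1 / 2 + η) * m * T := by linarith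
      _ = m * T * (1 / 2 + η + 5 * δ) := by ring
  -- the lower bound
  have hpad : ∀ p ∈ S, ∃ e : ℕ, (p : ℤ) ^ e ∣ D ∧
      (l p * ((1 - η) * T)) * ((1 / 2 - η) * m - m * η) ≤ (e : ℝ) * Real.log p := by
    intro p hp
    refine D_padic p (hS p hp).two_le r hr1 P (fun h => (N h : ℤ)) (fun h => c h p) (fun h => a h p)
      (fun h => hdiv h p hp) ((1 / 2 - η) * m) (fun L hL => hPvan p hp L hL) (l p * ((1 - η) * T))
      (mul_nonneg (hl p hp) (mul_nonneg (by linarith) hT0.le)) (fun h => ?_) J (m * η) hwJ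
    have h1 := hlow h p hp
    calc l p * ((1 - η) * T) ≤ l p * ((r h : ℝ) * Real.log (N h)) :=
          mul_le_mul_of_nonneg_left (hr_low h) (hl p hp)
      _ = (r h : ℝ) * (l p * Real.log (N h)) := by ring
      _ ≤ (r h : ℝ) * ((a h p : ℝ) * Real.log p) := mul_le_mul_of_nonneg_left h1 (Nat.cast_nonneg _)
  choose! e he1 he2 using hpad
  have hprod := prod_le S hS D hJ' e he1
  have hsum : (∑ p ∈ S, l p) * (1 - η) * T * ((1 / 2 - η) * m - m * η) ≤ m * T * (1 / 2 + η + 5 * δ) := by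
    have h1 : (∑ p ∈ S, l p) * (1 - η) * T * ((1 / 2 - η) * m - m * η) =
        ∑ p ∈ S, (l p * ((1 - η) * T)) * ((1 / 2 - η) * m - m * η) := by
      rw [Finset.sum_mul, Finset.sum_mul, Finset.sum_mul]
      exact Finset.sum_congr rfl fun p _ => by ring
    rw [h1]
    exact ((Finset.sum_le_sum he2).trans hprod).trans hlogD
  exact core_final m T ε η δ _ hmR hT0 hε hε1 hη hδ2 hlsum hsum

end Rid
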