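import Mathlib

/-!
# Definitions for Ridout's theorem (rational points, moving integer targets)

`bin I J` is the product of the binomials `I h choose J h`, `tay b` the substitution `X ↦ X + b`,
`wt r J = ∑ J h / r h` the weight of an exponent, `l1` the sum of the absolute values of the coefficients.
-/

set_option autoImplicit false

namespace Rid

open MvPolynomial

/-- product of binomial coefficients -/
noncomputable def bin {m : ℕ} (I J : Fin m →₀ ℕ) : ℕ := ∏ h, (I h).choose (J h)

/-- the substitution `X h ↦ X h + β h` -/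
noncomputable def tay {m : ℕ} {R : Type} [CommRing R] (β : Fin m → R) :
    MvPolynomial (Fin m) R →ₐ[R] MvPolynomial (Fin m) R :=
  aeval (fun h => X h + C (β h))

/-- weight of an exponent -/
noncomputable def wt {m : ℕ} (r : Fin m → ℕ) (J : Fin m →₀ ℕ) : ℝ := ∑ h, (J h : ℝ) / (r h : ℝ)

/-- sum of the absolute values of the coefficients -/
noncomputable def l1 {m : ℕ} (P : MvPolynomial (Fin m) ℤ) : ℕ := ∑ I ∈ P.support, (coeff I P).natAbs

theorem bin_eq_zero {m : ℕ} {I J : Fin m →₀ ℕ} (h : ¬ J ≤ I) : bin I J = 0 := by
  rw [Finsupp.le_def] at h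
  push Not at h
  obtain ⟨i, hi⟩ := h
  exact Finset.prod_eq_zero (Finset.mem_univ i) (Nat.choose_eq_zero_of_lt hi)

end Rid
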