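import Pool.Agent.Lib.MP_4ae430_nt.R.Core
import Pool.Agent.Lib.MP_4ae430_nt.R.B1
import Pool.Agent.Lib.MP_4ae430_nt.R.B2

/-!
# Ridout's theorem with moving integer targets

For a finite set `S` of primes and `ε > 0` there are `δ > 0`, `N₀` such that for all `N ≥ N₀` and all integers `c p`, `|c p| ≤ N ^ δ`, with
`p ^ (a p) ∣ N + c p` (`p ∈ S`): `∑ a p log p < (1 + ε) log N`.
-/

set_option autoImplicit false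

namespace Rid

theorem ridout_le_one (S : Finset ℕ) (hS : ∀ p ∈ S, p.Prime) (ε : ℝ) (hε : 0 < ε) (hε1 : ε ≤ 1) :
    ∃ δ : ℝ, 0 < δ ∧ ∃ N₀ : ℕ, ∀ N : ℕ, N₀ ≤ N → ∀ (c : ℕ → ℤ) (a : ℕ → ℕ),
      (∀ p ∈ S, |(c p : ℝ)| ≤ (N : ℝ) ^ δ) → (∀ p ∈ S, (p : ℤ) ^ (a p) ∣ (N : ℤ) + c p) →
        ∑ p ∈ S, (a p : ℝ) * Real.log p < (1 + ε) * Real.log N := by
  obtain ⟨m, δ, G, N₀, hδ, hG, hcore⟩ := core S hS ε hε hε1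
  refine ⟨δ, hδ, ?_⟩
  by_contra hno
  push Not at hno
  obtain ⟨l, hl0, hl1, hl2⟩ := pigeon S ε hε hε1
    (fun N c a => (∀ p ∈ S, |(c p : ℝ)| ≤ (N : ℝ) ^ δ) ∧ (∀ p ∈ S, (p : ℤ) ^ (a p) ∣ (N : ℤ) + c p))
    (fun N₁ => by
      obtain ⟨N, hN, c, a, hc, ha, hsum⟩ := hno N₁
      exact ⟨N, hN, c, a, ⟨hc, ha⟩, hsum⟩)
  obtain ⟨N, x, hNx, hgrow⟩ := growth
    (fun N (x : (ℕ → ℤ) × (ℕ → ℕ)) => ((∀ p ∈ S, |(x.1 p : ℝ)| ≤ (N : ℝ) ^ δ) ∧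
      (∀ p ∈ S, (p : ℤ) ^ (x.2 p) ∣ (N : ℤ) + x.1 p)) ∧
      ∀ p ∈ S, l p * Real.log N ≤ (x.2 p : ℝ) * Real.log p)
    (fun N₁ => by
      obtain ⟨N, hN, c, a, hQ, hla⟩ := hl2 N₁
      exact ⟨N, hN, (c, a), hQ, hla⟩) m G hG N₀
  exact hcore l hl0 hl1 N (fun h => (x h).1) (fun h => (x h).2) (fun h => (hNx h).1) hgrow
    (fun h => (hNx h).2.1.1) (fun h => (hNx h).2.1.2) (fun h => (hNx h).2.2)

/-- Ridout's theorem, moving integer targets. -/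
theorem ridout (S : Finset ℕ) (hS : ∀ p ∈ S, p.Prime) (ε : ℝ) (hε : 0 < ε) :
    ∃ δ : ℝ, 0 < δ ∧ ∃ N₀ : ℕ, ∀ N : ℕ, N₀ ≤ N → ∀ (c : ℕ → ℤ) (a : ℕ → ℕ),
      (∀ p ∈ S, |(c p : ℝ)| ≤ (N : ℝ) ^ δ) → (∀ p ∈ S, (p : ℤ) ^ (a p) ∣ (N : ℤ) + c p) →
        ∑ p ∈ S, (a p : ℝ) * Real.log p < (1 + ε) * Real.log N := by
  obtain ⟨δ, hδ, N₀, h⟩ := ridout_le_one S hS (min ε 1) (lt_min hε one_pos) (min_le_right _ _)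
  refine ⟨δ, hδ, max N₀ 1, fun N hN c a hc ha => ?_⟩
  refine (h N (le_trans (le_max_left _ _) hN) c a hc ha).trans_le ?_
  have h1 : 0 ≤ Real.log N := Real.log_nonneg (by exact_mod_cast le_trans (le_max_right _ _) hN)
  exact mul_le_mul_of_nonneg_right (by have := min_le_left ε 1; linarith) h1

end Rid
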